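import Mathlib
import Pool.Graph.R_pool_sql_team_seeded_3997aac3.Q292.Ess.Tent

/-!
# Geodesics with two corners, for arbitrary directions
-/

set_option autoImplicit false

namespace Pool.Agent.KS6_62.Ess

open Q292.Ess SimpleGraph MeasureTheory ProbabilityTheory

variable {d n : ℕ} {a b : ℝ}

/-! ### A concave function of two variables -/

/-- the potential of a tent of height `h`: `x` is the vertical and `z` the horizontal coordinate -/
noncomputable def F (a b h x z : ℝ) : ℝ := min (a * x + b * z) (a * (2 * h - x) + a * z)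

theorem F_lip (ha : 0 < a) (hab : a < b) (h x z x' z' : ℝ) :
    |F a b h x' z' - F a b h x z| ≤ a * |x' - x| + b * |z' - z| := by
  unfold F
  refine (abs_min_sub_min_le_max _ _ _ _).trans (max_le ?_ ?_)
  · have h1 : a * x' + b * z' - (a * x + b * z) = a * (x' - x) + b * (z' - z) := by ring
    rw [h1]
    refine (abs_add_le _ _).trans ?_
    rw [abs_mul, abs_mul, abs_of_pos ha, abs_of_pos (ha.trans hab)]
  · have h1 : a * (2 * h - x') + a * z' - (a * (2 * h - x) + a * z) =
      -(a * (x' - x)) + a * (z' - z) := by ring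
    rw [h1]
    refine (abs_add_le _ _).trans ?_
    rw [abs_neg, abs_mul, abs_mul, abs_of_pos ha]
    have := mul_le_mul_of_nonneg_right hab.le (abs_nonneg (z' - z))
    linarith

theorem F_up (ha : 0 < a) {h x : ℝ} (hx : x ≤ h) : F a b h x 0 = a * x := by
  unfold F
  rw [min_eq_left]
  · ring
  · nlinarith

theorem F_top (hab : a < b) {h z : ℝ} (hz : 0 ≤ z) : F a b h h z = a * h + a * z := by
  unfold F
  rw [min_eq_right]
  · ring
  · nlinarith

theorem F_down (ha : 0 < a) {h x z : ℝ} (hx : 0 ≤ x) (hz : 2 * a * h ≤ (b - a) * z) :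
    F a b h x z = a * (2 * h - x) + a * z := by
  unfold F
  rw [min_eq_right]
  nlinarith

/-! ### The potential -/

section pot

variable (i k : Fin d) (s s' B : ℤ)

/-- the norm without the coordinates `i` and `k` -/
def rest (z : Fin d → ℤ) : ℤ := nm z - |z i| - |z k|

/-- minus the negative part of `s z_i` -/
def xm (z : Fin d → ℤ) : ℤ := max (-(s * z i)) 0
/-- the positive part of `s z_i` -/
def xp (z : Fin d → ℤ) : ℤ := max (s * z i) 0
/-- the part of `s' z_k` below `B` -/
def ym (z : Fin d → ℤ) : ℤ := |min (s' * z k) B|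
/-- the part of `s' z_k` above `B` -/
def yp (z : Fin d → ℤ) : ℤ := max (s' * z k - B) 0

theorem var_le (hik : i ≠ k) (hs : s = 1 ∨ s = -1) (hs' : s' = 1 ∨ s' = -1) (_hB : 0 ≤ B)
    {x y : Fin d → ℤ} (h : (lattice d).Adj x y) :
    |xm i s y - xm i s x| + |xp i s y - xp i s x| + |ym k s' B y - ym k s' B x| +
      |yp k s' B y - yp k s' B x| + |rest i k y - rest i k x| ≤ 1 := by
  obtain ⟨l, h1, h2⟩ := adj_struct h
  have h3 := nm_update x l (y l)
  rw [← h2] at h3
  by_cases hli : l = i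
  · subst hli
    have h4 : y k = x k := by rw [h2, Function.update_of_ne hik.symm]
    have e1 : ym k s' B y = ym k s' B x := by unfold ym; rw [h4]
    have e2 : yp k s' B y = yp k s' B x := by unfold yp; rw [h4]
    have e3 : rest l k y = rest l k x := by unfold rest; rw [h4]; omega
    rw [e1, e2, e3, sub_self, sub_self, sub_self, abs_zero]
    unfold xm xp
    rcases hs with rfl | rfl <;> rcases abs_cases (x l - y l) with ⟨h5, _⟩ | ⟨h5, _⟩ <;> grind
  · by_cases hlk : l = k
    · subst hlk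
      have h4 : y i = x i := by rw [h2, Function.update_of_ne hik]
      have e1 : xm i s y = xm i s x := by unfold xm; rw [h4]
      have e2 : xp i s y = xp i s x := by unfold xp; rw [h4]
      have e3 : rest i l y = rest i l x := by unfold rest; rw [h4]; omega
      rw [e1, e2, e3, sub_self, sub_self, sub_self, abs_zero]
      unfold ym yp
      rcases hs' with rfl | rfl <;> rcases abs_cases (x l - y l) with ⟨h5, _⟩ | ⟨h5, _⟩ <;> grind
    · have h4 : y i = x i := by rw [h2, Function.update_of_ne (Ne.symm hli)]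
      have h5 : y k = x k := by rw [h2, Function.update_of_ne (Ne.symm hlk)]
      have e1 : xm i s y = xm i s x := by unfold xm; rw [h4]
      have e2 : xp i s y = xp i s x := by unfold xp; rw [h4]
      have e3 : ym k s' B y = ym k s' B x := by unfold ym; rw [h5]
      have e4 : yp k s' B y = yp k s' B x := by unfold yp; rw [h5]
      rw [e1, e2, e3, e4, sub_self, sub_self, sub_self, sub_self, abs_zero]
      unfold rest
      rw [h4, h5]
      rcases abs_cases (x l - y l) with ⟨h6, _⟩ | ⟨h6, _⟩ <;>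
      rcases abs_cases (x l) with ⟨h7, _⟩ | ⟨h7, _⟩ <;>
      rcases abs_cases (y l) with ⟨h8, _⟩ | ⟨h8, _⟩ <;> grind

/-- The potential. -/
noncomputable def Pt (a b : ℝ) (h h' : ℕ) (z : Fin d → ℤ) : ℝ :=
  F a b h (xm i s z) ((ym k s' B z : ℤ) + (rest i k z : ℤ)) +
    F a b h' (yp k s' B z) (xp i s z)

theorem Pt_lip (ha : 0 < a) (hab : a < b) (hik : i ≠ k) (hs : s = 1 ∨ s = -1)
    (hs' : s' = 1 ∨ s' = -1) (hB : 0 ≤ B) (h h' : ℕ) {x y : Fin d → ℤ} (hxy : (lattice d).Adj x y) :
    |Pt i k s s' B a b h h' y - Pt i k s s' B a b h h' x| ≤ b := by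
  have h1 := var_le i k s s' B hik hs hs' hB hxy
  have h1' : |((xm i s y : ℤ) : ℝ) - (xm i s x : ℤ)| + |((xp i s y : ℤ) : ℝ) - (xp i s x : ℤ)| +
      |((ym k s' B y : ℤ) : ℝ) - (ym k s' B x : ℤ)| +
      |((yp k s' B y : ℤ) : ℝ) - (yp k s' B x : ℤ)| +
      |((rest i k y : ℤ) : ℝ) - (rest i k x : ℤ)| ≤ 1 := by exact_mod_cast h1
  have h2 := F_lip ha hab (h : ℝ) (xm i s x) ((ym k s' B x : ℤ) + (rest i k x : ℤ)) (xm i s y)
    ((ym k s' B y : ℤ) + (rest i k y : ℤ))
  have h3 := F_lip ha hab (h' : ℝ) (yp k s' B x) (xp i s x) (yp k s' B y) (xp i s y)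
  have h4 : |((ym k s' B y : ℤ) : ℝ) + (rest i k y : ℤ) - ((ym k s' B x : ℤ) + (rest i k x : ℤ))| ≤
      |((ym k s' B y : ℤ) : ℝ) - (ym k s' B x : ℤ)| +
      |((rest i k y : ℤ) : ℝ) - (rest i k x : ℤ)| := by
    refine le_trans (le_of_eq ?_) (abs_add_le _ _)
    congr 1
    ring
  unfold Pt
  have h5 : F a b h (xm i s y) ((ym k s' B y : ℤ) + (rest i k y : ℤ)) +
      F a b h' (yp k s' B y) (xp i s y) - (F a b h (xm i s x) ((ym k s' B x : ℤ) + (rest i k x : ℤ)) +
      F a b h' (yp k s' B x) (xp i s x)) =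
      (F a b h (xm i s y) ((ym k s' B y : ℤ) + (rest i k y : ℤ)) -
        F a b h (xm i s x) ((ym k s' B x : ℤ) + (rest i k x : ℤ))) +
      (F a b h' (yp k s' B y) (xp i s y) - F a b h' (yp k s' B x) (xp i s x)) := by ring
  rw [h5]
  refine (abs_add_le _ _).trans ?_
  have h6 := abs_nonneg (((xm i s y : ℤ) : ℝ) - (xm i s x : ℤ))
  have h7 := abs_nonneg (((yp k s' B y : ℤ) : ℝ) - (yp k s' B x : ℤ))
  have hb : 0 < b := ha.trans hab
  have h8 := mul_le_mul_of_nonneg_left h4 hb.le
  have h9 := mul_le_mul_of_nonneg_right hab.le h6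
  have h10 := mul_le_mul_of_nonneg_right hab.le h7
  have h11 := mul_le_mul_of_nonneg_left h1' hb.le
  nlinarith

open Classical in
/-- The configuration given by a potential: the edges along which it changes by at most `a` have
passage time `a`. -/
noncomputable def cfg (φ : (Fin d → ℤ) → ℝ) (a : ℝ) : Cfg d n := fun e =>
  decide (∀ x y, (e : Sym2 (Fin d → ℤ)) = s(x, y) → |φ y - φ x| ≤ a)

theorem cfg_lower (hab : a < b) (φ : (Fin d → ℤ) → ℝ)
    (hφ : ∀ x y, (lattice d).Adj x y → |φ y - φ x| ≤ b) {u w : Fin d → ℤ} (γ : (G d n).Walk u w) :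
    φ w - φ u ≤ T a b (cfg (n := n) φ a) γ := by
  classical
  refine potential (a := a) (b := b) _ φ γ fun x y he => ?_
  have hadj : (G d n).Adj x y := γ.adj_of_mem_edges he
  have he' : s(x, y) ∈ (G d n).edgeSet := hadj
  have h1 := hφ x y hadj.2.2
  rw [tm_cases _ he']
  split_ifs with hc
  · have h2 : (∀ x' y', s(x, y) = s(x', y') → |φ y' - φ x'| ≤ a) := by
      simpa [cfg] using hc
    exact (le_abs_self _).trans (h2 x y rfl)
  · exact (le_abs_self _).trans h1

theorem cfg_edge (φ : (Fin d → ℤ) → ℝ) {x y : Fin d → ℤ} (he : s(x, y) ∈ (G d n).edgeSet)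
    (h : |φ y - φ x| ≤ a) : tm a b (cfg (n := n) φ a) s(x, y) = a := by
  classical
  rw [tm_cases _ he, if_pos]
  simp only [cfg, decide_eq_true_eq]
  intro x' y' hxy
  rcases Sym2.eq_iff.1 hxy with ⟨rfl, rfl⟩ | ⟨rfl, rfl⟩
  · exact h
  · rwa [abs_sub_comm]

/-- a walk along which the potential is an affine function of the norm with slope `± a` -/
theorem cfg_leg (ha : 0 < a) (φ : (Fin d → ℤ) → ℝ) {u w : Fin d → ℤ} (p : (G d n).Walk u w) (c ε : ℝ)
    (hε : |ε| ≤ 1) (h : ∀ z ∈ p.support, φ z = c + ε * (a * (nm z : ℝ))) :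
    ∀ e ∈ p.edges, tm a b (cfg (n := n) φ a) e = a := by
  intro e he
  induction e with
  | h x y =>
    have hadj : (G d n).Adj x y := p.adj_of_mem_edges he
    have hx := h x (Walk.mem_support_of_mem_edges he (Sym2.mem_mk_left x y))
    have hy := h y (Walk.mem_support_of_mem_edges he (Sym2.mem_mk_right x y))
    refine cfg_edge φ hadj ?_
    rw [hx, hy]
    have h1 : |((nm y : ℤ) : ℝ) - (nm x : ℤ)| = 1 := by
      rcases nm_adj hadj.2.2 with h | h <;> rw [h] <;> push_cast <;> norm_num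
    have h2 : c + ε * (a * (nm y : ℝ)) - (c + ε * (a * (nm x : ℝ))) =
      ε * (a * ((nm y : ℝ) - (nm x : ℝ))) := by ring
    rw [h2, abs_mul, abs_mul, abs_of_pos ha, h1, mul_one]
    nlinarith

end pot

end Pool.Agent.KS6_62.Ess
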