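import Mathlib
import Pool.Graph.R_pool_sql_team_seeded_3997aac3.Q292.Ess.Tent

/-!
# Edges that are never very influential
-/

set_option autoImplicit false

namespace Pool.Agent.KS6_62.Ess

open Q292.Ess SimpleGraph MeasureTheory ProbabilityTheory

variable {d n : ℕ} {a b : ℝ}

/-- A very influential edge lies on a geodesic path for the configuration where it is `a`. -/
theorem very_geodesic (ha : 0 < a) (hab : a < b) {v : Fin d → ℤ} (hv2 : ∀ i, |v i| ≤ 2)
    {j : W d n} {ω : Cfg d n} (hω : ω ∈ VeryInfluential a b v j) :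
    ∃ γ : (G d n).Walk 0 (n • v), γ.IsPath ∧ (j : Sym2 (Fin d → ℤ)) ∈ γ.edges ∧
      T a b (Function.update ω j true) γ + (b - a) = f a b v (Function.update ω j false) := by
  classical
  have h0 : f a b v (Function.update ω j false) - f a b v (Function.update ω j true) = b - a := hω
  obtain ⟨γ0, -⟩ := exists_direct (n := n) hv2
  obtain ⟨γ, hγ⟩ := exists_walk_f ha hab (Function.update ω j true) γ0
  have h1 : T a b (Function.update ω j true) γ.bypass = f a b v (Function.update ω j true) :=
    le_antisymm (hγ ▸ T_bypass_le ha hab _ γ) (f_le ha hab _ _)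
  refine ⟨γ.bypass, γ.bypass_isPath, ?_, by rw [h1]; linarith⟩
  by_contra hj
  have h2 := f_le ha hab (Function.update ω j false) γ.bypass
  rw [T_update_not ω j false γ.bypass hj] at h2
  rw [T_update_not ω j true γ.bypass hj] at h1
  linarith

/-- An edge at a vertex `c` through which all walks are long is never very influential. -/
theorem very_empty' (ha : 0 < a) (hab : a < b) {v : Fin d → ℤ} (hv2 : ∀ i, |v i| ≤ 2)
    (c : Fin d → ℤ)
    (hm : b * (nm (n • v) : ℝ) < a * ((nm c : ℝ) + nm (n • v - c)) + (b - a))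
    (j : W d n) (hj : c ∈ (j : Sym2 (Fin d → ℤ))) : VeryInfluential a b v j = ∅ := by
  classical
  rw [Set.eq_empty_iff_forall_notMem]
  intro ω hω
  obtain ⟨γ, -, hjγ, hγ⟩ := very_geodesic ha hab hv2 hω
  obtain ⟨γ0, hγ0⟩ := exists_direct (n := n) hv2
  have hγ0' : ((γ0.length : ℕ) : ℝ) = (nm (n • v) : ℝ) := by exact_mod_cast hγ0
  have hc : c ∈ γ.support := Walk.mem_support_of_mem_edges hjγ hj
  have h1 := T_ge_dist (a := a) (b := b) ha hab (Function.update ω j true) (γ.takeUntil c hc)
  have h2 := T_ge_dist (a := a) (b := b) ha hab (Function.update ω j true) (γ.dropUntil c hc)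
  have h3 : T a b (Function.update ω j true) γ = T a b (Function.update ω j true)
      (γ.takeUntil c hc) + T a b (Function.update ω j true) (γ.dropUntil c hc) := by
    rw [← T_append, Walk.take_spec]
  rw [sub_zero] at h1
  have h4 := f_le ha hab (Function.update ω j false) γ0
  have h5 := T_le_length hab (Function.update ω j false) γ0
  rw [hγ0'] at h5
  linarith

/-- crossing a hyperplane -/
theorem exists_cross {s : ℤ} (hs : s = 1 ∨ s = -1) (i : Fin d) {x y : Fin d → ℤ}
    (p : (G d n).Walk x y) (hx : s * x i ≤ 0) (hy : 0 ≤ s * y i) : ∃ z ∈ p.support, z i = 0 := by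
  induction p with
  | nil =>
    refine ⟨_, Walk.start_mem_support _, ?_⟩
    rcases hs with rfl | rfl <;> omega
  | @cons x u y hadj p ih =>
    by_cases hx0 : x i = 0
    · exact ⟨x, Walk.start_mem_support _, hx0⟩
    · have h1 : |x i - u i| ≤ 1 := by
        have h2 : ∑ l, |x l - u l| = 1 := hadj.2.2
        rw [← h2]
        exact Finset.single_le_sum (f := fun l => |x l - u l|) (fun _ _ => abs_nonneg _)
          (Finset.mem_univ i)
      obtain ⟨z, hz, hz0⟩ := ih (by
        rcases hs with rfl | rfl <;> rcases abs_cases (x i - u i) with ⟨h5, _⟩ | ⟨h5, _⟩ <;>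
          omega) hy
      exact ⟨z, by rw [Walk.support_cons]; exact List.mem_cons_of_mem _ hz, hz0⟩

/-- vertices of walks are in the box -/
theorem support_box {x y : Fin d → ℤ} (p : (G d n).Walk x y) (hx : ∀ l, |x l| ≤ 2 * (n : ℤ)) :
    ∀ z ∈ p.support, ∀ l, |z l| ≤ 2 * (n : ℤ) := by
  induction p with
  | nil =>
    intro z hz
    rw [Walk.support_nil, List.mem_singleton] at hz
    rw [hz]
    exact hx
  | @cons x u y hadj p ih =>
    intro z hz
    rw [Walk.support_cons, List.mem_cons] at hz
    rcases hz with rfl | hz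
    · exact hx
    · exact ih hadj.2.1 z hz

/-- A second criterion: walks through `c` must come back to the hyperplane `z_i = 0`. -/
theorem very_empty_cross (ha : 0 < a) (hab : a < b) {v : Fin d → ℤ} (hv2 : ∀ i, |v i| ≤ 2)
    {s : ℤ} (hs : s = 1 ∨ s = -1) (i : Fin d) (hsi : 0 ≤ s * (n • v) i) {h : ℕ} (h1 : 1 ≤ h)
    (c : Fin d → ℤ) (hci : c i = -(s * h))
    (hm : (b - a) * (2 * n * ((d : ℝ) - 1)) < 2 * a * h + (b - a))
    (j : W d n) (hj : c ∈ (j : Sym2 (Fin d → ℤ))) : VeryInfluential a b v j = ∅ := by
  classical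
  rw [Set.eq_empty_iff_forall_notMem]
  intro ω hω
  obtain ⟨γ, hγp, hjγ, hγ⟩ := very_geodesic ha hab hv2 hω
  have hc : c ∈ γ.support := Walk.mem_support_of_mem_edges hjγ hj
  set q := γ.dropUntil c hc with hq
  have hqp : q.IsPath := hγp.dropUntil hc
  have hsc : s * c i ≤ 0 := by
    rw [hci]
    rcases hs with rfl | rfl <;> omega
  obtain ⟨z, hz, hz0⟩ := exists_cross hs i q hsc hsi
  have hcz : c ≠ z := by
    intro e
    rw [← e, hci] at hz0
    rcases hs with rfl | rfl <;> omega
  set r := q.dropUntil z hz with hr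
  have hjr : (j : Sym2 (Fin d → ℤ)) ∉ r.edges := by
    intro hjr
    have hcr : c ∈ r.support := Walk.mem_support_of_mem_edges hjr hj
    have h2 : (q.takeUntil z hz).append r = q := Walk.take_spec q hz
    have h3 : q.support.Nodup := hqp.support_nodup
    rw [← h2, Walk.support_append] at h3
    have h4 := (List.nodup_append.1 h3).2.2 c (Walk.start_mem_support _)
    rw [← Walk.cons_tail_support] at hcr
    rcases List.mem_cons.1 hcr with h5 | h5
    · exact hcz h5
    · exact h4 c h5 rfl
  -- the box
  have hzb : ∀ l, |z l| ≤ 2 * (n : ℤ) := by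
    have h2 : z ∈ γ.support := (γ.support_dropUntil_subset_support hc) hz
    exact support_box γ (by simp) z h2
  have hnz : nm z ≤ 2 * n * (d - 1) := by
    have h2 : nm z ≤ ∑ l : Fin d, if l = i then 0 else 2 * (n : ℤ) := by
      refine Finset.sum_le_sum fun l _ => ?_
      split_ifs with hl
      · rw [hl, hz0, abs_zero]
      · exact hzb l
    refine h2.trans (le_of_eq ?_)
    have h3 : ∀ l : Fin d, (if l = i then (0 : ℤ) else 2 * (n : ℤ)) =
        2 * n - (if l = i then 2 * (n : ℤ) else 0) := fun l => by split_ifs <;> ring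
    simp only [h3]
    rw [Finset.sum_sub_distrib, Finset.sum_const, Finset.card_univ, Fintype.card_fin,
      Finset.sum_ite_eq' Finset.univ i]
    simp
    ring
  have hnz' : (nm z : ℝ) ≤ 2 * n * ((d : ℝ) - 1) := by exact_mod_cast hnz
  -- a direct walk to `z`
  obtain ⟨δ, hδ, -⟩ := outWalk' (n := n) hzb (nm z).toNat 0 (dom_zero _) (by
    rw [nm_zero]
    have := nm_nonneg z
    omega)
  have hδ' : ((δ.length : ℕ) : ℝ) = (nm z : ℝ) := by
    have := nm_nonneg z
    have h2 : (δ.length : ℤ) = nm z := by rw [hδ]; omega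
    exact_mod_cast h2
  have h2 := f_le ha hab (Function.update ω j false) (δ.append r)
  rw [T_append, T_update_not ω j false r hjr] at h2
  have h3 := T_le_length hab (Function.update ω j false) δ
  rw [hδ'] at h3
  have h4 : T a b (Function.update ω j true) γ = T a b (Function.update ω j true)
      (γ.takeUntil c hc) + T a b (Function.update ω j true) q := by
    rw [← T_append, Walk.take_spec]
  have h5 : T a b (Function.update ω j true) q = T a b (Function.update ω j true)
      (q.takeUntil z hz) + T a b (Function.update ω j true) r := by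
    rw [← T_append, Walk.take_spec]
  rw [T_update_not ω j true r hjr] at h5
  have h6 := T_ge_dist (a := a) (b := b) ha hab (Function.update ω j true) (γ.takeUntil c hc)
  have h7 := T_ge_dist (a := a) (b := b) ha hab (Function.update ω j true) (q.takeUntil z hz)
  rw [sub_zero] at h6
  have h8 := nm_through (z := c) (w := z) i hz0
  have h9 : |c i| = h := by
    rw [hci]
    rcases hs with rfl | rfl <;> simp
  rw [h9] at h8
  have h8' : (nm z : ℝ) + 2 * h ≤ nm c + nm (z - c) := by exact_mod_cast h8
  have h10 := mul_le_mul_of_nonneg_left h8' ha.le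
  have h11 := mul_le_mul_of_nonneg_left hnz' (show 0 ≤ b - a by linarith)
  linarith

/-- a walk through an edge that does not contain its end -/
theorem T_edge_end (ha : 0 < a) (hab : a < b) (ω : Cfg d n) {x y : Fin d → ℤ}
    (p : (G d n).Walk x y) {e : Sym2 (Fin d → ℤ)} (he : e ∈ p.edges) (hy : y ∉ e) :
    tm a b ω e + a ≤ T a b ω p := by
  induction p with
  | nil => simp at he
  | @cons x u y hadj p ih =>
    rw [T_cons]
    rw [Walk.edges_cons, List.mem_cons] at he
    rcases he with rfl | he
    · have h1 := T_ge_dist (a := a) (b := b) ha hab ω p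
      have h2 : 1 ≤ nm (y - u) := by
        have h3 : y - u ≠ 0 := by
          intro h
          exact hy (by rw [sub_eq_zero.1 h]; exact Sym2.mem_mk_right _ _)
        exact nm_pos h3
      have h2' : (1 : ℝ) ≤ nm (y - u) := by exact_mod_cast h2
      have h3 := mul_le_mul_of_nonneg_left h2' ha.le
      linarith
    · have h1 := ih he hy
      have h2 := tm_nonneg (n := n) ha hab ω s(x, u)
      linarith

theorem T_reverse (ω : Cfg d n) {x y : Fin d → ℤ} (p : (G d n).Walk x y) :
    T a b ω p.reverse = T a b ω p := by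
  unfold T
  rw [Walk.edges_reverse, List.map_reverse, List.sum_reverse]

theorem T_edge_start (ha : 0 < a) (hab : a < b) (ω : Cfg d n) {x y : Fin d → ℤ}
    (p : (G d n).Walk x y) {e : Sym2 (Fin d → ℤ)} (he : e ∈ p.edges) (hx : x ∉ e) :
    tm a b ω e + a ≤ T a b ω p := by
  rw [← T_reverse ω p]
  exact T_edge_end ha hab ω p.reverse (by rw [Walk.edges_reverse, List.mem_reverse]; exact he) hx

end Pool.Agent.KS6_62.Ess
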