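import Mathlib
import Pool.Agent.KS6_62.Ess.Corner
import Pool.Agent.KS6_62.Ess.Very

/-!
# A cyclic chain of tents
-/

set_option autoImplicit false

namespace Pool.Agent.KS6_62.Ess

open Q292.Ess SimpleGraph MeasureTheory ProbabilityTheory

variable {D n : ℕ} {a b : ℝ}

section chain

variable (k : Fin (D + 1)) (w s : Fin (D + 1) → ℤ)

/-- the vertical part of the coordinate `l`: its negative part, and for `l = k` the part beyond
`w k` -/
def vert (l : Fin (D + 1)) (x : ℤ) : ℤ :=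
  if l = k then max (s l * x - |w l|) 0 else max (-(s l * x)) 0

/-- the rest of the coordinate `l` -/
def mid (l : Fin (D + 1)) (x : ℤ) : ℤ :=
  if l = k then |min (s l * x) (|w l|)| else max (s l * x) 0

theorem vert_nonneg (l : Fin (D + 1)) (x : ℤ) : 0 ≤ vert k w s l x := by
  unfold vert
  split_ifs <;> exact le_max_right _ _

theorem mid_nonneg (l : Fin (D + 1)) (x : ℤ) : 0 ≤ mid k w s l x := by
  unfold mid
  split_ifs
  · exact abs_nonneg _
  · exact le_max_right _ _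

theorem var_one (hs : ∀ l, s l = 1 ∨ s l = -1) (l : Fin (D + 1)) {x y : ℤ} (h : |x - y| = 1) :
    |vert k w s l y - vert k w s l x| + |mid k w s l y - mid k w s l x| ≤ 1 := by
  unfold vert mid
  have h0 := abs_nonneg (w l)
  split_ifs
  · rcases hs l with hs | hs <;> rw [hs] <;>
      rcases abs_cases (x - y) with ⟨h5, _⟩ | ⟨h5, _⟩ <;> grind
  · rcases hs l with hs | hs <;> rw [hs] <;>
      rcases abs_cases (x - y) with ⟨h5, _⟩ | ⟨h5, _⟩ <;> grind

theorem var_sum (hs : ∀ l, s l = 1 ∨ s l = -1) {x y : Fin (D + 1) → ℤ}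
    (h : (lattice (D + 1)).Adj x y) :
    ∑ l, (|vert k w s l (y l) - vert k w s l (x l)| + |mid k w s l (y l) - mid k w s l (x l)|)
      ≤ 1 := by
  classical
  obtain ⟨l0, h1, h2⟩ := adj_struct h
  rw [Finset.sum_eq_single l0]
  · exact var_one k w s hs l0 h1
  · intro l _ hl
    have : y l = x l := by rw [h2, Function.update_of_ne hl]
    rw [this, sub_self, sub_self, abs_zero]
    norm_num
  · intro h
    exact absurd (Finset.mem_univ _) h

/-- The potential. -/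
noncomputable def Phi (a b : ℝ) (h : Fin (D + 1) → ℕ) (τ : Equiv.Perm (Fin (D + 1)))
    (z : Fin (D + 1) → ℤ) : ℝ :=
  ∑ l, F a b (h l) (vert k w s l (z l) : ℤ) (mid k w s (τ l) (z (τ l)) : ℤ)

theorem Phi_lip (ha : 0 < a) (hab : a < b) (hs : ∀ l, s l = 1 ∨ s l = -1)
    (h : Fin (D + 1) → ℕ) (τ : Equiv.Perm (Fin (D + 1))) {x y : Fin (D + 1) → ℤ}
    (hxy : (lattice (D + 1)).Adj x y) : |Phi k w s a b h τ y - Phi k w s a b h τ x| ≤ b := by
  classical
  have h1 := var_sum k w s hs hxy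
  have hb : 0 < b := ha.trans hab
  unfold Phi
  rw [← Finset.sum_sub_distrib]
  refine (Finset.abs_sum_le_sum_abs _ _).trans ?_
  have h2 : ∀ l, |F a b (h l) (vert k w s l (y l) : ℤ) (mid k w s (τ l) (y (τ l)) : ℤ) -
      F a b (h l) (vert k w s l (x l) : ℤ) (mid k w s (τ l) (x (τ l)) : ℤ)| ≤
      b * |((vert k w s l (y l) : ℤ) : ℝ) - (vert k w s l (x l) : ℤ)| +
      b * |((mid k w s (τ l) (y (τ l)) : ℤ) : ℝ) - (mid k w s (τ l) (x (τ l)) : ℤ)| := by
    intro l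
    refine (F_lip ha hab _ _ _ _ _).trans ?_
    have := mul_le_mul_of_nonneg_right hab.le
      (abs_nonneg (((vert k w s l (y l) : ℤ) : ℝ) - (vert k w s l (x l) : ℤ)))
    linarith
  refine (Finset.sum_le_sum fun l _ => h2 l).trans ?_
  rw [Finset.sum_add_distrib]
  rw [Equiv.sum_comp τ (fun l => b * |((mid k w s l (y l) : ℤ) : ℝ) - (mid k w s l (x l) : ℤ)|)]
  rw [← Finset.sum_add_distrib]
  have h3 : ∑ l, (|((vert k w s l (y l) : ℤ) : ℝ) - (vert k w s l (x l) : ℤ)| +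
      |((mid k w s l (y l) : ℤ) : ℝ) - (mid k w s l (x l) : ℤ)|) ≤ 1 := by
    exact_mod_cast h1
  calc ∑ l, (b * |((vert k w s l (y l) : ℤ) : ℝ) - (vert k w s l (x l) : ℤ)| +
      b * |((mid k w s l (y l) : ℤ) : ℝ) - (mid k w s l (x l) : ℤ)|)
      = b * ∑ l, (|((vert k w s l (y l) : ℤ) : ℝ) - (vert k w s l (x l) : ℤ)| +
      |((mid k w s l (y l) : ℤ) : ℝ) - (mid k w s l (x l) : ℤ)|) := by
        rw [Finset.mul_sum]
        exact Finset.sum_congr rfl fun l _ => by ring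
    _ ≤ b * 1 := mul_le_mul_of_nonneg_left h3 hb.le
    _ = b := mul_one b

theorem abs_split (hs : ∀ l, s l = 1 ∨ s l = -1) (l : Fin (D + 1)) {x : ℤ}
    (hx : l = k → 0 ≤ s l * x) : |x| = vert k w s l x + mid k w s l x := by
  unfold vert mid
  have h0 := abs_nonneg (w l)
  split_ifs with hl
  · have := hx hl
    rcases hs l with hs | hs <;> rw [hs] at this ⊢ <;> grind
  · rcases hs l with hs | hs <;> rw [hs] <;> grind

/-- The value of the potential on the part of the space used by the geodesic. -/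
theorem Phi_formula (ha : 0 < a) (hab : a < b) (hs : ∀ l, s l = 1 ∨ s l = -1)
    (h : Fin (D + 1) → ℕ) (τ : Equiv.Perm (Fin (D + 1))) (S : Finset (Fin (D + 1)))
    (z : Fin (D + 1) → ℤ) (hk : 0 ≤ s k * z k)
    (hS : ∀ l ∈ S, 2 * a * h l ≤ (b - a) * ((mid k w s (τ l) (z (τ l)) : ℤ) : ℝ))
    (hU : ∀ l, l ∉ S → vert k w s l (z l) = h l ∨
      (mid k w s (τ l) (z (τ l)) = 0 ∧ vert k w s l (z l) ≤ h l)) :
    Phi k w s a b h τ z = a * (nm z : ℝ) +
      2 * a * ∑ l ∈ S, ((h l : ℝ) - ((vert k w s l (z l) : ℤ) : ℝ)) := by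
  classical
  unfold Phi
  have h1 : ∀ l, F a b (h l) (vert k w s l (z l) : ℤ) (mid k w s (τ l) (z (τ l)) : ℤ) =
      (a * ((vert k w s l (z l) : ℤ) : ℝ) + a * ((mid k w s (τ l) (z (τ l)) : ℤ) : ℝ)) +
      (if l ∈ S then 2 * a * ((h l : ℝ) - ((vert k w s l (z l) : ℤ) : ℝ)) else 0) := by
    intro l
    have hv : (0 : ℝ) ≤ ((vert k w s l (z l) : ℤ) : ℝ) := by
      exact_mod_cast vert_nonneg k w s l (z l)
    have hm : (0 : ℝ) ≤ ((mid k w s (τ l) (z (τ l)) : ℤ) : ℝ) := by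
      exact_mod_cast mid_nonneg k w s (τ l) (z (τ l))
    split_ifs with hl
    · rw [F_down ha hv (hS l hl)]
      ring
    · rcases hU l hl with h2 | ⟨h2, h3⟩
      · have h2' : ((vert k w s l (z l) : ℤ) : ℝ) = h l := by exact_mod_cast h2
        rw [h2', F_top hab hm, add_zero]
      · have h3' : ((vert k w s l (z l) : ℤ) : ℝ) ≤ h l := by exact_mod_cast h3
        rw [h2, Int.cast_zero, F_up ha h3']
        ring
  rw [Finset.sum_congr rfl fun l _ => h1 l, Finset.sum_add_distrib, Finset.sum_ite_mem,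
    Finset.univ_inter, ← Finset.mul_sum, Finset.sum_add_distrib,
    Equiv.sum_comp τ (fun l => a * ((mid k w s l (z l) : ℤ) : ℝ)), ← Finset.sum_add_distrib]
  congr 1
  have h2 : (nm z : ℝ) = ∑ l, (((vert k w s l (z l) : ℤ) : ℝ) + ((mid k w s l (z l) : ℤ) : ℝ)) := by
    have h3 : nm z = ∑ l, (vert k w s l (z l) + mid k w s l (z l)) := by
      unfold nm
      refine Finset.sum_congr rfl fun l _ => abs_split k w s hs l ?_
      rintro rfl
      exact hk
    rw [h3]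
    push_cast
    rfl
  rw [h2, Finset.mul_sum]
  exact Finset.sum_congr rfl fun l _ => by ring

end chain

/-! ### Legs -/

theorem leg_up {d : ℕ} (ha : 0 < a) (φ : (Fin d → ℤ) → ℝ) {u w : Fin d → ℤ} (hd : dom u w)
    (hw : ∀ i, |w i| ≤ 2 * (n : ℤ)) (C : ℝ)
    (hφ : ∀ z, dom u z → dom z w → φ z = C + 1 * (a * (nm z : ℝ))) :
    ∃ p : (G d n).Walk u w, T a b (cfg (n := n) φ a) p = φ w - φ u := by
  have h0 := dom_nm hd
  obtain ⟨p, hp, hs⟩ := outWalk' (n := n) hw (nm w - nm u).toNat u hd (by omega)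
  refine ⟨p, ?_⟩
  have h1 := cfg_leg (n := n) (b := b) ha φ p C 1 (by norm_num) fun z hz =>
    hφ z (hs z hz).1 (hs z hz).2
  rw [T_all_a _ p h1, hφ w hd (dom_refl w), hφ u (dom_refl u) hd]
  have h2 : (p.length : ℤ) = nm w - nm u := by rw [hp]; omega
  have h3 : ((p.length : ℕ) : ℝ) = (nm w : ℝ) - nm u := by exact_mod_cast h2
  rw [h3]
  ring

theorem leg_down {d : ℕ} (ha : 0 < a) (φ : (Fin d → ℤ) → ℝ) {u w : Fin d → ℤ} (hd : dom u w)
    (hw : ∀ i, |w i| ≤ 2 * (n : ℤ)) (C : ℝ)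
    (hφ : ∀ z, dom u z → dom z w → φ z = C + (-1) * (a * (nm z : ℝ))) :
    ∃ p : (G d n).Walk w u, T a b (cfg (n := n) φ a) p = φ u - φ w := by
  have h0 := dom_nm hd
  obtain ⟨p, hp, hs⟩ := outWalk' (n := n) hw (nm w - nm u).toNat u hd (by omega)
  refine ⟨p.reverse, ?_⟩
  have h1 := cfg_leg (n := n) (b := b) ha φ p C (-1) (by norm_num) fun z hz =>
    hφ z (hs z hz).1 (hs z hz).2
  rw [T_reverse, T_all_a _ p h1, hφ w hd (dom_refl w), hφ u (dom_refl u) hd]
  have h2 : (p.length : ℤ) = nm w - nm u := by rw [hp]; omega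
  have h3 : ((p.length : ℕ) : ℝ) = (nm w : ℝ) - nm u := by exact_mod_cast h2
  rw [h3]
  ring

end Pool.Agent.KS6_62.Ess
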