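import Mathlib
import Pool.Agent.KS6_62.Ess.Chain

/-!
# The geodesic of a cyclic chain of tents
-/

set_option autoImplicit false

namespace Pool.Agent.KS6_62.Ess

open Q292.Ess SimpleGraph MeasureTheory ProbabilityTheory

variable {D n : ℕ} {a b : ℝ}

/-- position of the coordinate `l` in the order given by `e` -/
def pos (e : Equiv.Perm (Fin (D + 1))) (l : Fin (D + 1)) : ℕ := (e.symm l : Fin (D + 1)).val

/-- the previous coordinate, cyclically -/
def prv (e : Equiv.Perm (Fin (D + 1))) : Equiv.Perm (Fin (D + 1)) :=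
  e.symm.trans ((Equiv.subRight (1 : Fin (D + 1))).trans e)

theorem pos_zero {e : Equiv.Perm (Fin (D + 1))} {l : Fin (D + 1)} : pos e l = 0 ↔ l = e 0 := by
  unfold pos
  constructor
  · intro h
    have h2 : e.symm l = 0 := Fin.ext (by simpa using h)
    rw [← h2, Equiv.apply_symm_apply]
  · rintro rfl
    simp

theorem pos_prv {e : Equiv.Perm (Fin (D + 1))} {l : Fin (D + 1)} (h : 1 ≤ pos e l) :
    pos e (prv e l) = pos e l - 1 := by
  unfold pos prv at *
  simp only [Equiv.trans_apply, Equiv.subRight_apply, Equiv.symm_apply_apply]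
  rw [Fin.coe_sub_one, if_neg]
  intro h2
  rw [h2] at h
  simp at h

theorem prv_zero (e : Equiv.Perm (Fin (D + 1))) : prv e (e 0) = e (Fin.last D) := by
  unfold prv
  simp only [Equiv.trans_apply, Equiv.subRight_apply, Equiv.symm_apply_apply]
  congr 1
  apply Fin.ext
  rw [Fin.coe_sub_one, if_pos rfl]
  simp

theorem pos_lt (e : Equiv.Perm (Fin (D + 1))) (l : Fin (D + 1)) : pos e l < D + 1 :=
  (e.symm l).2

theorem pos_inj {e : Equiv.Perm (Fin (D + 1))} {l l' : Fin (D + 1)} (h : pos e l = pos e l') :
    l = l' := e.symm.injective (Fin.ext h)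

/-- the `t`-th corner of the geodesic -/
def Pc (e : Equiv.Perm (Fin (D + 1))) (w s : Fin (D + 1) → ℤ) (h : Fin (D + 1) → ℕ) (t : ℕ) :
    Fin (D + 1) → ℤ := fun l =>
  if l = e 0 then s l * (|w l| + h l) else if pos e l ≤ t then w l else -(s l * h l)

/-- the corners between -/
def Qc (e : Equiv.Perm (Fin (D + 1))) (w s : Fin (D + 1) → ℤ) (h : Fin (D + 1) → ℕ) (t : ℕ) :
    Fin (D + 1) → ℤ := fun l => if pos e l = t then 0 else Pc e w s h t l

theorem exists_edge' {V : Type*} {H : SimpleGraph V} {x y : V} (p : H.Walk x y) (hxy : x ≠ y) :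
    ∃ e ∈ p.edges, x ∈ e := by
  cases p with
  | nil => exact absurd rfl hxy
  | @cons _ z _ hadj p => exact ⟨s(x, z), by simp, Sym2.mem_mk_left _ _⟩

theorem chain_semi (ha : 0 < a) (hab : a < b) {v : Fin (D + 1) → ℤ} (hv2 : ∀ i, |v i| ≤ 2)
    (hD : 1 ≤ D) (e : Equiv.Perm (Fin (D + 1))) (s : Fin (D + 1) → ℤ)
    (hs : ∀ l, s l = 1 ∨ s l = -1) (hsw : ∀ l, s l * (n • v) l = |(n • v) l|)
    (h : Fin (D + 1) → ℕ) (hpos : ∃ l, 1 ≤ h l) (hh : ∀ l, l ≠ e 0 → h l ≤ 2 * n)
    (hh0 : |(n • v) (e 0)| + h (e 0) ≤ 2 * n)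
    (hm : ∀ l, 2 * a * h l ≤ (b - a) * ((|(n • v) (prv e l)| : ℤ) : ℝ)) :
    ∃ j : W (D + 1) n, Pc e (n • v) s h 0 ∈ (j : Sym2 (Fin (D + 1) → ℤ)) ∧
      ∃ ω : Cfg (D + 1) n, ω ∈ SemiEssential a b v j := by
  classical
  have hwb := smul_bound (n := n) hv2
  set w : Fin (D + 1) → ℤ := n • v with hw
  set k : Fin (D + 1) := e 0 with hk
  set φ : (Fin (D + 1) → ℤ) → ℝ := Phi k w s a b h (prv e) with hφ
  have hba : 0 < b - a := by linarith
  -- facts on `vert` and `mid`
  have absS : ∀ l (x : ℤ), |s l * x| = |x| := fun l x => by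
    rw [abs_mul]
    rcases hs l with h | h <;> rw [h] <;> simp
  have vW : ∀ l, vert k w s l (w l) = 0 := by
    intro l
    unfold vert
    rw [hsw]
    have := abs_nonneg (w l)
    split_ifs <;> simp
  have mW : ∀ l, mid k w s l (w l) = |w l| := by
    intro l
    unfold mid
    rw [hsw]
    split_ifs
    · rw [min_self, abs_abs]
    · rw [max_eq_left (abs_nonneg _)]
  have vN : ∀ l, l ≠ k → vert k w s l (-(s l * h l)) = h l := by
    intro l hl
    unfold vert
    rw [if_neg hl]
    rcases hs l with h | h <;> rw [h] <;> simp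
  have mN : ∀ l, l ≠ k → mid k w s l (-(s l * h l)) = 0 := by
    intro l hl
    unfold mid
    rw [if_neg hl]
    rcases hs l with h | h <;> rw [h] <;> simp
  have sK : s k * (s k * (|w k| + h k)) = |w k| + h k := by
    rcases hs k with h | h <;> rw [h] <;> ring
  have vK : vert k w s k (s k * (|w k| + h k)) = h k := by
    unfold vert
    rw [if_pos rfl, sK]
    simp
  have mK : mid k w s k (s k * (|w k| + h k)) = |w k| := by
    unfold mid
    rw [if_pos rfl, sK, min_eq_right (by omega), abs_abs]
  have Pk : ∀ t, Pc e w s h t k = s k * (|w k| + h k) := fun t => by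
    rw [Pc, if_pos hk]
  have Pw : ∀ t l, l ≠ k → pos e l ≤ t → Pc e w s h t l = w l := fun t l hl ht => by
    rw [Pc, if_neg hl, if_pos ht]
  have Pn : ∀ t l, l ≠ k → t < pos e l → Pc e w s h t l = -(s l * h l) := fun t l hl ht => by
    rw [Pc, if_neg hl, if_neg (not_le.2 ht)]
  have posk : pos e k = 0 := pos_zero.2 rfl
  have posne : ∀ l, l ≠ k → 1 ≤ pos e l := fun l hl => by
    by_contra hcon
    exact hl (pos_zero.1 (by omega))
  -- boxes
  have bP : ∀ t l, |Pc e w s h t l| ≤ 2 * (n : ℤ) := by
    intro t l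
    by_cases hl : l = k
    · subst hl
      rw [Pk, absS, abs_of_nonneg (by have := abs_nonneg (w k); omega)]
      exact hh0
    · by_cases ht : pos e l ≤ t
      · rw [Pw t l hl ht]
        exact hwb l
      · rw [Pn t l hl (not_le.1 ht), abs_neg, absS]
        have := hh l hl
        simp only [Nat.abs_cast]
        omega
  -- the first corner
  set c1 : Fin (D + 1) → ℤ := fun l => if l = k then 0 else -(s l * h l) with hc1
  have c1k : c1 k = 0 := by rw [hc1]; simp
  have c1n : ∀ l, l ≠ k → c1 l = -(s l * h l) := fun l hl => by rw [hc1]; simp [hl]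
  have bc1 : ∀ l, |c1 l| ≤ 2 * (n : ℤ) := by
    intro l
    by_cases hl : l = k
    · subst hl; rw [c1k]; simp
    · rw [c1n l hl, abs_neg, absS]
      have := hh l hl
      simp only [Nat.abs_cast]
      omega
  have dc1 : dom c1 (Pc e w s h 0) := by
    intro l
    by_cases hl : l = k
    · rw [hl, c1k]
      exact dom_zero _ k
    · have e1 : c1 l = Pc e w s h 0 l := by rw [c1n l hl, Pn 0 l hl (posne l hl)]
      rw [e1]
      exact dom_refl _ l
  -- leg A
  obtain ⟨pA, hpA⟩ := leg_up (n := n) (b := b) ha φ (dom_zero c1) bc1 0 (by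
    intro z _ hz
    have zk : z k = 0 := by
      have := hz k
      rw [c1k] at this
      omega
    have zl : ∀ l, vert k w s l (z l) ≤ h l ∧ mid k w s l (z l) = 0 := by
      intro l
      by_cases hl : l = k
      · rw [hl, zk]
        unfold vert mid
        rw [if_pos rfl, if_pos rfl, mul_zero, min_eq_left (abs_nonneg _), abs_zero]
        have := abs_nonneg (w k)
        refine ⟨?_, rfl⟩
        rw [max_eq_right (by omega)]
        positivity
      · have h1 := hz l
        rw [c1n l hl] at h1
        unfold vert mid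
        rw [if_neg hl, if_neg hl]
        rcases hs l with h | h <;> rw [h] at h1 ⊢ <;> omega
    rw [hφ, Phi_formula k w s ha hab hs h (prv e) ∅ z (by rw [zk]; simp) (by simp)
      (fun l _ => Or.inr ⟨(zl _).2, (zl l).1⟩)]
    simp)
  -- leg B
  obtain ⟨pB, hpB⟩ := leg_up (n := n) (b := b) ha φ dc1 (bP 0) 0 (by
    intro z hz1 hz2
    have zl : ∀ l, l ≠ k → z l = -(s l * h l) := by
      intro l hl
      have h1 := hz1 l
      have h2 := hz2 l
      rw [c1n l hl] at h1
      rw [Pn 0 l hl (posne l hl)] at h2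
      omega
    have h2 := hz2 k
    rw [Pk] at h2
    have zk0 : 0 ≤ s k * z k := by
      have := abs_nonneg (w k)
      rcases hs k with h | h <;> rw [h] at h2 ⊢ <;> omega
    have zk1 : vert k w s k (z k) ≤ h k := by
      unfold vert
      rw [if_pos rfl]
      have := abs_nonneg (w k)
      rcases hs k with h | h <;> rw [h] at h2 ⊢ <;> omega
    have hne : prv e k ≠ k := by
      rw [hk, prv_zero]
      intro h
      have := e.injective h
      have h3 : (Fin.last D).val = (0 : Fin (D + 1)).val := by rw [this]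
      simp at h3
      omega
    rw [hφ, Phi_formula k w s ha hab hs h (prv e) ∅ z zk0 (by simp) (fun l _ => by
      by_cases hl : l = k
      · right
        rw [hl, zl _ hne]
        exact ⟨mN _ hne, zk1⟩
      · left
        rw [zl l hl]
        exact vN l hl)]
    simp)
  -- the common part of the legs C and D
  have common : ∀ t, 1 ≤ t → t ≤ D → ∀ z : Fin (D + 1) → ℤ,
      (∀ l, pos e l ≠ t → z l = Pc e w s h t l) →
      (∀ l, pos e l = t → (vert k w s l (z l) : ℤ) ≤ h l) →
      φ z = a * (nm z : ℝ) + 2 * a * ∑ l ∈ Finset.univ.filter (fun l => 1 ≤ pos e l ∧ pos e l ≤ t),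
        ((h l : ℝ) - ((vert k w s l (z l) : ℤ) : ℝ)) := by
    intro t ht1 htD z hz _
    have zk : z k = s k * (|w k| + h k) := by rw [hz k (by omega), Pk]
    rw [hφ]
    refine Phi_formula k w s ha hab hs h (prv e) _ z ?_ ?_ ?_
    · rw [zk, sK]
      have := abs_nonneg (w k)
      omega
    · intro l hl
      rw [Finset.mem_filter] at hl
      obtain ⟨-, hl1, hl2⟩ := hl
      have hp := pos_prv hl1
      have h1 : mid k w s (prv e l) (z (prv e l)) = |w (prv e l)| := by
        by_cases h0 : prv e l = k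
        · rw [h0, zk, mK]
        · rw [hz _ (by omega), Pw t _ h0 (by omega), mW]
      rw [h1]
      exact hm l
    · intro l hl
      rw [Finset.mem_filter] at hl
      by_cases h0 : l = k
      · left
        rw [h0, zk, vK]
      · have h1 : t < pos e l := by
          by_contra hcon
          exact hl ⟨Finset.mem_univ _, posne l h0, not_lt.1 hcon⟩
        left
        rw [hz l (by omega), Pn t l h0 h1]
        exact vN l h0
  -- legs C and D
  have step : ∀ t, t < D → ∃ p : (G (D + 1) n).Walk (Pc e w s h t) (Pc e w s h (t + 1)),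
      T a b (cfg (n := n) φ a) p = φ (Pc e w s h (t + 1)) - φ (Pc e w s h t) := by
    intro t ht
    set l0 : Fin (D + 1) := e ⟨t + 1, by omega⟩ with hl0
    have p0 : pos e l0 = t + 1 := by rw [hl0, pos]; simp
    have l0k : l0 ≠ k := by
      intro h
      rw [h, posk] at p0
      omega
    have p0' : ∀ l, pos e l = t + 1 → l = l0 := fun l hl => pos_inj (by rw [hl, p0])
    have q0 : Qc e w s h (t + 1) l0 = 0 := by rw [Qc, if_pos p0]
    have qn : ∀ l, pos e l ≠ t + 1 → Qc e w s h (t + 1) l = Pc e w s h (t + 1) l := fun l hl => by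
      rw [Qc, if_neg hl]
    have pn : ∀ l, pos e l ≠ t + 1 → Pc e w s h t l = Pc e w s h (t + 1) l := by
      intro l hl
      by_cases h0 : l = k
      · rw [h0, Pk, Pk]
      · by_cases h1 : pos e l ≤ t
        · rw [Pw t l h0 h1, Pw (t + 1) l h0 (by omega)]
        · rw [Pn t l h0 (by omega), Pn (t + 1) l h0 (by omega)]
    have pt0 : Pc e w s h t l0 = -(s l0 * h l0) := Pn t l0 l0k (by omega)
    have pt1 : Pc e w s h (t + 1) l0 = w l0 := Pw (t + 1) l0 l0k (by omega)
    have d1 : dom (Qc e w s h (t + 1)) (Pc e w s h t) := by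
      intro l
      by_cases hl : pos e l = t + 1
      · rw [p0' l hl, q0]
        exact dom_zero _ l0
      · rw [qn l hl, ← pn l hl]
        exact dom_refl _ l
    have d2 : dom (Qc e w s h (t + 1)) (Pc e w s h (t + 1)) := by
      intro l
      by_cases hl : pos e l = t + 1
      · rw [p0' l hl, q0]
        exact dom_zero _ l0
      · rw [qn l hl]
        exact dom_refl _ l
    -- the value of the sum
    have hsum : ∀ z : Fin (D + 1) → ℤ, (∀ l, pos e l ≠ t + 1 → z l = Pc e w s h (t + 1) l) →
        ∑ l ∈ Finset.univ.filter (fun l => 1 ≤ pos e l ∧ pos e l ≤ t + 1),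
          ((h l : ℝ) - ((vert k w s l (z l) : ℤ) : ℝ)) =
        ∑ l ∈ Finset.univ.filter (fun l => 1 ≤ pos e l ∧ pos e l ≤ t + 1), (h l : ℝ) -
          ((vert k w s l0 (z l0) : ℤ) : ℝ) := by
      intro z hz
      rw [Finset.sum_sub_distrib]
      congr 1
      refine Finset.sum_eq_single_of_mem l0 (by
        rw [Finset.mem_filter]
        exact ⟨Finset.mem_univ _, by omega, by omega⟩) ?_
      intro l hl hne
      rw [Finset.mem_filter] at hl
      have h1 : pos e l ≠ t + 1 := fun h => hne (p0' l h)
      have h2 : l ≠ k := by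
        intro h
        rw [h, posk] at hl
        omega
      rw [hz l h1, Pw (t + 1) l h2 (by omega), vW, Int.cast_zero]
    obtain ⟨p1, hp1⟩ := leg_down (n := n) (b := b) ha φ d1 (bP t)
      (2 * a * (∑ l ∈ Finset.univ.filter (fun l => 1 ≤ pos e l ∧ pos e l ≤ t + 1), (h l : ℝ)) +
        2 * (a * (nm (Qc e w s h (t + 1)) : ℝ))) (by
      intro z hz1 hz2
      have hz : ∀ l, pos e l ≠ t + 1 → z l = Pc e w s h (t + 1) l := by
        intro l hl
        have h1 := hz1 l
        have h2 := hz2 l
        rw [qn l hl] at h1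
        rw [pn l hl] at h2
        omega
      have h2 := hz2 l0
      rw [pt0] at h2
      have hv : vert k w s l0 (z l0) = |z l0| := by
        unfold vert
        rw [if_neg l0k]
        rcases hs l0 with h | h <;> rw [h] at h2 ⊢ <;>
          rcases abs_cases (z l0) with ⟨h5, h6⟩ | ⟨h5, h6⟩ <;> omega
      have hvle : |z l0| ≤ h l0 := by
        have := dom_abs hz2 l0
        rwa [pt0, abs_neg, absS, Nat.abs_cast] at this
      rw [common (t + 1) (by omega) (by omega) z hz (fun l hl => by
        rw [p0' l hl, hv]; exact hvle), hsum z hz, hv]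
      have hz3 : z = Function.update (Qc e w s h (t + 1)) l0 (z l0) := by
        funext l
        by_cases hl : l = l0
        · subst hl; rw [Function.update_self]
        · rw [Function.update_of_ne hl, qn l (fun h => hl (p0' l h)),
            hz l (fun h => hl (p0' l h))]
      have hz4 : nm z = nm (Qc e w s h (t + 1)) + |z l0| := by
        conv_lhs => rw [hz3]
        rw [nm_update, q0]
        simp
      have hz5 : ((|z l0| : ℤ) : ℝ) = (nm z : ℝ) - nm (Qc e w s h (t + 1)) := by
        rw [hz4]; push_cast; ring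
      rw [hz5]
      ring)
    obtain ⟨p2, hp2⟩ := leg_up (n := n) (b := b) ha φ d2 (bP (t + 1))
      (2 * a * (∑ l ∈ Finset.univ.filter (fun l => 1 ≤ pos e l ∧ pos e l ≤ t + 1), (h l : ℝ))) (by
      intro z hz1 hz2
      have hz : ∀ l, pos e l ≠ t + 1 → z l = Pc e w s h (t + 1) l := by
        intro l hl
        have h1 := hz1 l
        have h2 := hz2 l
        rw [qn l hl] at h1
        omega
      have h2 := hz2 l0
      rw [pt1] at h2
      have hv : vert k w s l0 (z l0) = 0 := by
        have h3 := hsw l0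
        have h4 := abs_nonneg (w l0)
        unfold vert
        rw [if_neg l0k]
        rcases hs l0 with h | h <;> rw [h] at h3 ⊢ <;> omega
      rw [common (t + 1) (by omega) (by omega) z hz (fun l hl => by
        rw [p0' l hl, hv]; positivity), hsum z hz, hv]
      push_cast
      ring)
    exact ⟨p1.append p2, by rw [T_append, hp1, hp2]; ring⟩
  have steps : ∀ t, t ≤ D → ∃ p : (G (D + 1) n).Walk (Pc e w s h 0) (Pc e w s h t),
      T a b (cfg (n := n) φ a) p = φ (Pc e w s h t) - φ (Pc e w s h 0) := by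
    intro t
    induction t with
    | zero => intro _; exact ⟨Walk.nil, by simp⟩
    | succ t ih =>
      intro ht
      obtain ⟨p, hp⟩ := ih (by omega)
      obtain ⟨q, hq⟩ := step t (by omega)
      exact ⟨p.append q, by rw [T_append, hp, hq]; ring⟩
  obtain ⟨pC, hpC⟩ := steps D le_rfl
  -- leg E
  have PD : ∀ l, l ≠ k → Pc e w s h D l = w l := fun l hl => Pw D l hl (by
    have := pos_lt e l
    omega)
  have dE : dom w (Pc e w s h D) := by
    intro l
    by_cases hl : l = k
    · rw [hl, Pk]
      have h1 := hsw k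
      have h2 := abs_nonneg (w k)
      rcases hs k with h | h <;> rw [h] at h1 ⊢
      · left; omega
      · right; omega
    · rw [PD l hl]
      exact dom_refl w l
  obtain ⟨pE, hpE⟩ := leg_down (n := n) (b := b) ha φ dE (bP D)
    (2 * a * (∑ l, (h l : ℝ)) + 2 * (a * (nm w : ℝ))) (by
    intro z hz1 hz2
    have hz : ∀ l, l ≠ k → z l = w l := by
      intro l hl
      have h1 := hz1 l
      have h2 := hz2 l
      rw [PD l hl] at h2
      omega
    have h1 := hz1 k
    have h2 := hz2 k
    rw [Pk] at h2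
    have h3 := hsw k
    have h4 := abs_nonneg (w k)
    have zk0 : 0 ≤ s k * z k := by
      rcases hs k with h | h <;> rw [h] at h2 h3 ⊢ <;> omega
    have hv : vert k w s k (z k) = |z k| - |w k| := by
      unfold vert
      rw [if_pos rfl]
      rcases hs k with h | h <;> rw [h] at h2 h3 ⊢ <;>
        rcases abs_cases (z k) with ⟨h5, h6⟩ | ⟨h5, h6⟩ <;> omega
    have hmk : mid k w s k (z k) = |w k| := by
      unfold mid
      rw [if_pos rfl]
      have h5 : min (s k * z k) |w k| = |w k| := by
        rcases hs k with h | h <;> rw [h] at h2 h3 ⊢ <;> omega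
      rw [h5, abs_abs]
    rw [hφ, Phi_formula k w s ha hab hs h (prv e) Finset.univ z zk0 (fun l _ => by
      have h5 : mid k w s (prv e l) (z (prv e l)) = |w (prv e l)| := by
        by_cases h0 : prv e l = k
        · rw [h0, hmk]
        · rw [hz _ h0, mW]
      rw [h5]
      exact hm l) (fun l hl => absurd (Finset.mem_univ l) hl)]
    have h6 : ∑ l, ((h l : ℝ) - ((vert k w s l (z l) : ℤ) : ℝ)) = ∑ l, (h l : ℝ) -
        ((vert k w s k (z k) : ℤ) : ℝ) := by
      rw [Finset.sum_sub_distrib]
      congr 1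
      refine Finset.sum_eq_single_of_mem k (Finset.mem_univ _) ?_
      intro l _ hne
      rw [hz l hne, vW, Int.cast_zero]
    have hz3 : z = Function.update w k (z k) := by
      funext l
      by_cases hl : l = k
      · subst hl; rw [Function.update_self]
      · rw [Function.update_of_ne hl, hz l hl]
    have hz4 : nm z = nm w - |w k| + |z k| := by
      conv_lhs => rw [hz3]
      rw [nm_update]
    have hz5 : ((|z k| - |w k| : ℤ) : ℝ) = (nm z : ℝ) - nm w := by
      rw [hz4]; push_cast; ring
    rw [h6, hv, hz5]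
    ring)
  -- the edge
  have hne : Pc e w s h 0 ≠ w := by
    intro heq
    obtain ⟨l, hl⟩ := hpos
    have h1 := congrFun heq l
    have h2 := hsw l
    have h3 := abs_nonneg (w l)
    by_cases hlk : l = k
    · rw [hlk] at h1 h2 h3 hl
      rw [Pk] at h1
      rcases hs k with h | h <;> rw [h] at h1 h2 <;> omega
    · rw [Pn 0 l hlk (posne l hlk)] at h1
      rcases hs l with h | h <;> rw [h] at h1 h2 <;> omega
  set r : (G (D + 1) n).Walk (Pc e w s h 0) w := pC.append pE with hr
  obtain ⟨ed, hed, hced⟩ := exists_edge' r hne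
  set γ : (G (D + 1) n).Walk 0 w := pA.append (pB.append r) with hγ
  have hedγ : ed ∈ γ.edges := by
    rw [hγ]
    simp only [Walk.edges_append, List.mem_append]
    tauto
  refine ⟨⟨ed, γ.edges_subset_edgeSet hedγ⟩, hced, cfg φ a, ?_⟩
  have hT : T a b (cfg (n := n) φ a) γ = φ w - φ 0 := by
    rw [hγ, T_append, T_append, hr, T_append, hpA, hpB, hpC, hpE]
    ring
  refine (geodesic_of_walk ha hab γ hedγ fun γ' => ?_).2
  rw [hT]
  exact cfg_lower (n := n) hab φ (fun x y hxy => Phi_lip k w s ha hab hs h (prv e) hxy) γ'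

end Pool.Agent.KS6_62.Ess
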