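import Mathlib
import Pool.Agent.KS6_62.Ess.Very

/-!
# Walks that must return to an orthant
-/

set_option autoImplicit false

namespace Pool.Agent.KS6_62.Ess

open Q292.Ess SimpleGraph MeasureTheory ProbabilityTheory

variable {d n : ℕ} {a b : ℝ}

/-- A walk that enters the orthant given by `s` does so at a vertex with a vanishing coordinate. -/
theorem exists_enter {s : Fin d → ℤ} (hs : ∀ l, s l = 1 ∨ s l = -1) {x y : Fin d → ℤ}
    (p : (G d n).Walk x y) (hx : ¬ ∀ l, 0 ≤ s l * x l) (hy : ∀ l, 0 ≤ s l * y l) :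
    ∃ z ∈ p.support, (∀ l, 0 ≤ s l * z l) ∧ ∃ l, z l = 0 := by
  induction p with
  | nil => exact absurd hy hx
  | @cons x u y hadj p ih =>
    by_cases hu : ∀ l, 0 ≤ s l * u l
    · refine ⟨u, by simp, hu, ?_⟩
      push Not at hx
      obtain ⟨l, hl⟩ := hx
      refine ⟨l, ?_⟩
      have h1 : |x l - u l| ≤ 1 := by
        have h2 : ∑ l, |x l - u l| = 1 := hadj.2.2
        rw [← h2]
        exact Finset.single_le_sum (f := fun l => |x l - u l|) (fun _ _ => abs_nonneg _)
          (Finset.mem_univ l)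
      have h2 := hu l
      rw [abs_le] at h1
      rcases hs l with h | h <;> rw [h] at hl h2 <;> omega
    · obtain ⟨z, hz, hz0⟩ := ih hu hy
      exact ⟨z, by rw [Walk.support_cons]; exact List.mem_cons_of_mem _ hz, hz0⟩

theorem very_empty_orthant (ha : 0 < a) (hab : a < b) {v : Fin d → ℤ} (hv2 : ∀ i, |v i| ≤ 2)
    {s : Fin d → ℤ} (hs : ∀ l, s l = 1 ∨ s l = -1) (hsw : ∀ l, 0 ≤ s l * (n • v) l) {H : ℕ}
    (hH : 1 ≤ H) (c : Fin d → ℤ) (hc : ∑ l, max (-(s l * c l)) 0 = H)
    (hm : (b - a) * (2 * n * ((d : ℝ) - 1)) < 2 * a * H + (b - a))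
    (j : W d n) (hj : c ∈ (j : Sym2 (Fin d → ℤ))) : VeryInfluential a b v j = ∅ := by
  classical
  rw [Set.eq_empty_iff_forall_notMem]
  intro ω hω
  obtain ⟨γ, hγp, hjγ, hγ⟩ := very_geodesic ha hab hv2 hω
  have hc' : c ∈ γ.support := Walk.mem_support_of_mem_edges hjγ hj
  set q := γ.dropUntil c hc' with hq
  have hqp : q.IsPath := hγp.dropUntil hc'
  have hcneg : ¬ ∀ l, 0 ≤ s l * c l := by
    intro h
    rw [Finset.sum_eq_zero (fun l _ => max_eq_right (by have := h l; omega))] at hc
    omega
  obtain ⟨z, hz, hz0, i, hzi⟩ := exists_enter hs q hcneg hsw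
  have hcz : c ≠ z := by
    rintro rfl
    exact hcneg hz0
  set r := q.dropUntil z hz with hr
  have hjr : (j : Sym2 (Fin d → ℤ)) ∉ r.edges := by
    intro hjr
    have hcr : c ∈ r.support := Walk.mem_support_of_mem_edges hjr hj
    have h2 : (q.takeUntil z hz).append r = q := Walk.take_spec q hz
    have h3 : q.support.Nodup := hqp.support_nodup
    rw [← h2, Walk.support_append] at h3
    have h4 := (List.nodup_append.1 h3).2.2 c (Walk.start_mem_support _)
    rw [← Walk.cons_tail_support] at hcr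
    rcases List.mem_cons.1 hcr with h5 | h5
    · exact hcz h5
    · exact h4 c h5 rfl
  have hzb : ∀ l, |z l| ≤ 2 * (n : ℤ) := by
    have h2 : z ∈ γ.support := (γ.support_dropUntil_subset_support hc') hz
    exact support_box γ (by simp) z h2
  have hnz : nm z ≤ 2 * n * (d - 1) := by
    have h2 : nm z ≤ ∑ l : Fin d, if l = i then 0 else 2 * (n : ℤ) := by
      refine Finset.sum_le_sum fun l _ => ?_
      split_ifs with hl
      · rw [hl, hzi, abs_zero]
      · exact hzb l
    refine h2.trans (le_of_eq ?_)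
    have h3 : ∀ l : Fin d, (if l = i then (0 : ℤ) else 2 * (n : ℤ)) =
        2 * n - (if l = i then 2 * (n : ℤ) else 0) := fun l => by split_ifs <;> ring
    simp only [h3]
    rw [Finset.sum_sub_distrib, Finset.sum_const, Finset.card_univ, Fintype.card_fin,
      Finset.sum_ite_eq' Finset.univ i]
    simp
    ring
  have hnz' : (nm z : ℝ) ≤ 2 * n * ((d : ℝ) - 1) := by exact_mod_cast hnz
  obtain ⟨δ, hδ, -⟩ := outWalk' (n := n) hzb (nm z).toNat 0 (dom_zero _) (by
    rw [nm_zero]
    have := nm_nonneg z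
    omega)
  have hδ' : ((δ.length : ℕ) : ℝ) = (nm z : ℝ) := by
    have := nm_nonneg z
    have h2 : (δ.length : ℤ) = nm z := by rw [hδ]; omega
    exact_mod_cast h2
  have h2 := f_le ha hab (Function.update ω j false) (δ.append r)
  rw [T_append, T_update_not ω j false r hjr] at h2
  have h3 := T_le_length hab (Function.update ω j false) δ
  rw [hδ'] at h3
  have h4 : T a b (Function.update ω j true) γ = T a b (Function.update ω j true)
      (γ.takeUntil c hc') + T a b (Function.update ω j true) q := by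
    rw [← T_append, Walk.take_spec]
  have h5 : T a b (Function.update ω j true) q = T a b (Function.update ω j true)
      (q.takeUntil z hz) + T a b (Function.update ω j true) r := by
    rw [← T_append, Walk.take_spec]
  rw [T_update_not ω j true r hjr] at h5
  have h6 := T_ge_dist (a := a) (b := b) ha hab (Function.update ω j true) (γ.takeUntil c hc')
  have h7 := T_ge_dist (a := a) (b := b) ha hab (Function.update ω j true) (q.takeUntil z hz)
  rw [sub_zero] at h6
  have h8 : nm z + 2 * H ≤ nm c + nm (z - c) := by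
    rw [← hc]
    unfold nm
    rw [Finset.mul_sum, ← Finset.sum_add_distrib, ← Finset.sum_add_distrib]
    refine Finset.sum_le_sum fun l _ => ?_
    rw [Pi.sub_apply]
    have h9 := hz0 l
    rcases hs l with h | h <;> rw [h] at h9 ⊢ <;>
      rcases abs_cases (z l) with ⟨h10, h11⟩ | ⟨h10, h11⟩ <;>
      rcases abs_cases (c l) with ⟨h12, h13⟩ | ⟨h12, h13⟩ <;>
      rcases abs_cases (z l - c l) with ⟨h14, h15⟩ | ⟨h14, h15⟩ <;> omega
  have h8' : (nm z : ℝ) + 2 * H ≤ nm c + nm (z - c) := by exact_mod_cast h8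
  have h10 := mul_le_mul_of_nonneg_left h8' ha.le
  have h11 := mul_le_mul_of_nonneg_left hnz' (show 0 ≤ b - a by linarith)
  linarith

end Pool.Agent.KS6_62.Ess
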