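import Mathlib
import Pool.Agent.KS6_62.Ess.Corner
import Pool.Agent.KS6_62.Ess.Very

/-!
# Vectors of norm two, `b ≥ 3 a`
-/

set_option autoImplicit false

namespace Pool.Agent.KS6_62.Ess

open Q292.Ess SimpleGraph MeasureTheory ProbabilityTheory

variable {d : ℕ} {a b : ℝ}

theorem small_very (ha : 0 < a) (hab : a < b) {v : Fin d → ℤ} (hv2 : ∀ i, |v i| ≤ 2)
    {y y' : Fin d → ℤ} (h0y : (G d 1).Adj 0 y) (hyw : (G d 1).Adj y ((1 : ℕ) • v))
    (hyy' : (G d 1).Adj y y') (hy0 : y' ≠ 0) (hy'w : y' ≠ (1 : ℕ) • v) :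
    VeryInfluential (n := 1) a b v ⟨s(y, y'), hyy'⟩ = ∅ := by
  classical
  rw [Set.eq_empty_iff_forall_notMem]
  intro ω hω
  set j : W d 1 := ⟨s(y, y'), hyy'⟩ with hj
  obtain ⟨γ, hγp, hjγ, hγ⟩ := very_geodesic ha hab hv2 hω
  have h1 := T_update_path (a := a) (b := b) ω j γ hγp hjγ
  rw [← h1] at hγ
  have hy : y ∈ γ.support := Walk.mem_support_of_mem_edges hjγ (Sym2.mem_mk_left _ _)
  set ω' : Cfg d 1 := Function.update ω j false with hω'
  have htm : tm a b ω' (j : Sym2 (Fin d → ℤ)) = b := by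
    rw [hω', tm_update, if_pos rfl]
    simp
  have h3 : T a b ω' γ = T a b ω' (γ.takeUntil y hy) + T a b ω' (γ.dropUntil y hy) := by
    rw [← T_append, Walk.take_spec]
  have h4 : (j : Sym2 (Fin d → ℤ)) ∈ (γ.takeUntil y hy).edges ∨
      (j : Sym2 (Fin d → ℤ)) ∈ (γ.dropUntil y hy).edges := by
    rw [← Walk.take_spec γ hy, Walk.edges_append, List.mem_append] at hjγ
    exact hjγ
  rcases h4 with h4 | h4
  · have h5 := T_edge_start ha hab ω' (γ.takeUntil y hy) h4 (by
      rw [hj]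
      intro h
      rcases Sym2.mem_iff.1 h with h | h
      · exact h0y.ne h
      · exact hy0 h.symm)
    have h6 := f_le ha hab ω' (Walk.cons h0y (γ.dropUntil y hy))
    rw [T_cons] at h6
    have h7 := tm_le hab ω' (show s(0, y) ∈ (G d 1).edgeSet from h0y)
    rw [htm] at h5
    linarith
  · have h5 := T_edge_end ha hab ω' (γ.dropUntil y hy) h4 (by
      rw [hj]
      intro h
      rcases Sym2.mem_iff.1 h with h | h
      · exact hyw.ne h.symm
      · exact hy'w h.symm)
    have h6 := f_le ha hab ω' ((γ.takeUntil y hy).append (Walk.cons hyw Walk.nil))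
    rw [T_append, T_cons, T_nil, add_zero] at h6
    have h7 := tm_le hab ω' (show s(y, (1 : ℕ) • v) ∈ (G d 1).edgeSet from hyw)
    rw [htm] at h5
    linarith

theorem small_semi (ha : 0 < a) (hab : a < b) (h3 : 3 * a ≤ b) {v : Fin d → ℤ}
    (hv : nm v = 2) {y y' w' : Fin d → ℤ} (h0y : (G d 1).Adj 0 y)
    (hyy' : (G d 1).Adj y y') (hyw' : (G d 1).Adj y' w') (hw'w : (G d 1).Adj w' ((1 : ℕ) • v))
    (n1 : nm y = 1) (n2 : nm y' = 2) (n3 : nm w' = 3) (hy'w : y' ≠ (1 : ℕ) • v) :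
    ∃ ω : Cfg d 1, ω ∈ SemiEssential (n := 1) a b v ⟨s(y, y'), hyy'⟩ := by
  classical
  set w : Fin d → ℤ := (1 : ℕ) • v with hw
  have hnw : nm w = 2 := by rw [hw, one_smul, hv]
  set φ : (Fin d → ℤ) → ℝ := Function.update (fun z => a * (nm z : ℝ)) w (4 * a) with hφ
  have hb : 0 < b := ha.trans hab
  have φw : φ w = 4 * a := by rw [hφ, Function.update_self]
  have φo : ∀ z, z ≠ w → φ z = a * (nm z : ℝ) := fun z hz => by
    rw [hφ, Function.update_of_ne hz]
  have aux : ∀ z, (lattice d).Adj w z → |φ z - φ w| ≤ b ∧ (nm z : ℝ) ≤ 3 := by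
    intro z hz
    have h1 := nm_adj hz
    rw [hnw] at h1
    rw [φw, φo z hz.ne']
    rcases h1 with h | h
    · rw [h]
      push_cast
      refine ⟨?_, by norm_num⟩
      rw [abs_le]
      constructor <;> linarith
    · rw [h]
      push_cast
      refine ⟨?_, by norm_num⟩
      rw [abs_le]
      constructor <;> linarith
  have hlip : ∀ x z, (lattice d).Adj x z → |φ z - φ x| ≤ b := by
    intro x z hxz
    by_cases hx : x = w
    · rw [hx] at hxz ⊢
      exact (aux z hxz).1
    · by_cases hz : z = w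
      · rw [hz] at hxz ⊢
        rw [abs_sub_comm]
        exact (aux x hxz.symm).1
      · rw [φo x hx, φo z hz]
        rcases nm_adj hxz with h | h <;> rw [h] <;> push_cast <;> rw [abs_le] <;>
          constructor <;> linarith
  have ne0 : (0 : Fin d → ℤ) ≠ w := by
    intro h
    rw [← h, nm_zero] at hnw
    omega
  have ney : y ≠ w := by
    intro h
    rw [← h, n1] at hnw
    omega
  have new' : w' ≠ w := hw'w.ne
  have f0 : φ 0 = 0 := by rw [φo 0 ne0, nm_zero]; simp
  have fy : φ y = a := by rw [φo y ney, n1]; simp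
  have fy' : φ y' = 2 * a := by rw [φo y' hy'w, n2]; push_cast; ring
  have fw' : φ w' = 3 * a := by rw [φo w' new', n3]; push_cast; ring
  set γ : (G d 1).Walk 0 w := Walk.cons h0y (Walk.cons hyy' (Walk.cons hyw' (Walk.cons hw'w Walk.nil)))
    with hγ
  have e1 : tm a b (cfg (n := 1) φ a) s(0, y) = a := cfg_edge φ h0y (by
    rw [f0, fy, sub_zero, abs_of_pos ha])
  have e2 : tm a b (cfg (n := 1) φ a) s(y, y') = a := cfg_edge φ hyy' (by
    rw [fy, fy', abs_of_nonneg (by linarith)]; linarith)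
  have e3 : tm a b (cfg (n := 1) φ a) s(y', w') = a := cfg_edge φ hyw' (by
    rw [fy', fw', abs_of_nonneg (by linarith)]; linarith)
  have e4 : tm a b (cfg (n := 1) φ a) s(w', w) = a := cfg_edge φ hw'w (by
    rw [fw', φw, abs_of_nonneg (by linarith)]; linarith)
  have hT : T a b (cfg (n := 1) φ a) γ = 4 * a := by
    rw [hγ, T_cons, T_cons, T_cons, T_cons, T_nil, e1, e2, e3, e4]
    ring
  refine ⟨cfg φ a, (geodesic_of_walk (j := ⟨s(y, y'), hyy'⟩) ha hab γ (by simp [hγ])
    fun γ' => ?_).2⟩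
  have h5 := cfg_lower (n := 1) hab φ hlip γ'
  rw [hT]
  rw [φw, f0] at h5
  linarith

theorem small_case (hd : 2 ≤ d) (ha : 0 < a) (hab : a < b) (h3 : 3 * a ≤ b) (p : unitInterval)
    (hp0 : 0 < (p : ℝ)) (hp1 : (p : ℝ) < 1) {v : Fin d → ℤ} (hv : nm v = 2) :
    ∃ j : W d 1, 0 < (law d 1 p).real (SemiEssential a b v j) ∧
      (law d 1 p).real (VeryInfluential a b v j) = 0 := by
  classical
  have hv2 : ∀ i, |v i| ≤ 2 := fun i => (abs_le_nm v i).trans hv.le
  set w : Fin d → ℤ := (1 : ℕ) • v with hw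
  have hwv : w = v := by rw [hw, one_smul]
  have hnw : nm w = 2 := by rw [hwv, hv]
  have ne0 : (0 : Fin d → ℤ) ≠ w := by
    intro h
    rw [← h, nm_zero] at hnw
    omega
  obtain ⟨y, a0y, -, dyw, n1⟩ := step_out (dom_zero w) ne0
  rw [nm_zero, zero_add] at n1
  have hyw : y ≠ w := by
    intro h
    rw [h, hnw] at n1
    omega
  obtain ⟨u, ayu, -, duw, nu⟩ := step_out dyw hyw
  have huw : u = w := eq_of_dom_nm duw (by rw [hnw, nu, n1]; norm_num)
  rw [huw] at ayu
  obtain ⟨i1, hi1, hy1⟩ := adj_struct a0y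
  obtain ⟨i2, hi2, hw2⟩ := adj_struct ayu
  -- the side step
  obtain ⟨l, hl, t, ht, htt⟩ : ∃ l, l ≠ i2 ∧ ∃ t : ℤ, |t| = 1 ∧ |y l + t| = |y l| + 1 := by
    by_cases h12 : i1 = i2
    · have : Nontrivial (Fin d) := Fin.nontrivial_iff_two_le.mpr hd
      obtain ⟨l, hl⟩ := exists_ne i2
      refine ⟨l, hl, 1, by norm_num, ?_⟩
      have : y l = 0 := by rw [hy1, Function.update_of_ne (by rw [h12]; exact hl)]; rfl
      rw [this]
      norm_num
    · refine ⟨i1, h12, y i1, ?_, ?_⟩
      · simpa using hi1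
      · have h4 : y i1 + y i1 = 2 * y i1 := by ring
        have h5 : |y i1| = 1 := by simpa using hi1
        rw [h4, abs_mul, h5]
        norm_num
  have hwl : w l = y l := by rw [hw2, Function.update_of_ne hl]
  set y' : Fin d → ℤ := Function.update y l (y l + t) with hy'
  set w' : Fin d → ℤ := Function.update w l (w l + t) with hw'
  have n2 : nm y' = 2 := by rw [hy', nm_update, htt, n1]; ring
  have n3 : nm w' = 3 := by rw [hw', nm_update, hwl, htt, hnw]; ring
  have ayy' : (lattice d).Adj y y' := adj_update y l (by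
    have : y l - (y l + t) = -t := by ring
    rw [this, abs_neg, ht])
  have aww' : (lattice d).Adj w w' := adj_update w l (by
    have : w l - (w l + t) = -t := by ring
    rw [this, abs_neg, ht])
  have ay'w' : (lattice d).Adj y' w' := by
    have h4 : w' = Function.update y' i2 (w i2) := by
      rw [hw', hy', hwl]
      conv_lhs => rw [hw2]
      exact Function.update_comm (Ne.symm hl) _ _ _
    rw [h4]
    refine adj_update y' i2 ?_
    rw [hy', Function.update_of_ne (Ne.symm hl)]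
    exact hi2
  have bnd : ∀ z : Fin d → ℤ, nm z ≤ 2 → ∀ i, |z i| ≤ 2 * ((1 : ℕ) : ℤ) := fun z hz i => by
    have := abs_le_nm z i
    push_cast
    omega
  have b0 := bnd 0 (by rw [nm_zero]; norm_num)
  have by1 := bnd y (by omega)
  have by2 := bnd y' (by omega)
  have bw := bnd w (by omega)
  have bw' : ∀ i, |w' i| ≤ 2 * ((1 : ℕ) : ℤ) := by
    intro i
    by_cases hi : i = l
    · subst hi
      rw [hw', Function.update_self, hwl, htt]
      have := abs_le_nm y i
      push_cast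
      omega
    · rw [hw', Function.update_of_ne hi]
      exact bw i
  have g0y : (G d 1).Adj 0 y := ⟨b0, by1, a0y⟩
  have gyw : (G d 1).Adj y w := ⟨by1, bw, ayu⟩
  have gyy' : (G d 1).Adj y y' := ⟨by1, by2, ayy'⟩
  have gy'w' : (G d 1).Adj y' w' := ⟨by2, bw', ay'w'⟩
  have gw'w : (G d 1).Adj w' w := ⟨bw', bw, aww'.symm⟩
  have hy'w : y' ≠ w := by
    intro h
    have h4 := congrFun h i2
    rw [hy', Function.update_of_ne (Ne.symm hl)] at h4
    rw [h4] at hi2
    simp at hi2
  have hy'0 : y' ≠ 0 := by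
    intro h
    rw [h, nm_zero] at n2
    omega
  obtain ⟨ω, hω⟩ := small_semi ha hab h3 hv g0y gyy' gy'w' gw'w n1 n2 n3 hy'w
  refine ⟨⟨s(y, y'), gyy'⟩, prob_pos p hp0 hp1 _ _ hω, ?_⟩
  rw [small_very ha hab hv2 g0y gyw gyy' hy'0 hy'w]
  simp

end Pool.Agent.KS6_62.Ess
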