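import Mathlib
import Pool.Agent.KS6_62.Ess.Chain2
import Pool.Agent.KS6_62.Ess.Cross
import Pool.Agent.KS6_62.Ess.Small

/-!
# All directions
-/

set_option autoImplicit false

namespace Pool.Agent.KS6_62.Ess

open Q292.Ess SimpleGraph MeasureTheory ProbabilityTheory

variable {D : ℕ} {a b : ℝ}

theorem exists_perm (hD : 1 ≤ D) {i k : Fin (D + 1)} (hik : i ≠ k) :
    ∃ e : Equiv.Perm (Fin (D + 1)), e 0 = k ∧ e (Fin.last D) = i := by
  classical
  have h0 : (0 : Fin (D + 1)) ≠ Fin.last D := by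
    intro h
    have := congrArg Fin.val h
    simp at this
    omega
  set e1 : Equiv.Perm (Fin (D + 1)) := Equiv.swap 0 k with he1
  have e10 : e1 0 = k := Equiv.swap_apply_left 0 k
  refine ⟨(Equiv.swap (Fin.last D) (e1.symm i)).trans e1, ?_, ?_⟩
  · rw [Equiv.trans_apply, Equiv.swap_apply_of_ne_of_ne h0 ?_, e10]
    intro h
    apply hik
    rw [← e10, h, Equiv.apply_symm_apply]
  · rw [Equiv.trans_apply, Equiv.swap_apply_left, Equiv.apply_symm_apply]

/-- the signs of the coordinates -/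
def sg (v : Fin (D + 1) → ℤ) (l : Fin (D + 1)) : ℤ := if 0 ≤ v l then 1 else -1

theorem sg_cases (v : Fin (D + 1) → ℤ) (l : Fin (D + 1)) : sg v l = 1 ∨ sg v l = -1 := by
  unfold sg
  split_ifs
  · exact Or.inl rfl
  · exact Or.inr rfl

theorem sg_mul (v : Fin (D + 1) → ℤ) (n : ℕ) (l : Fin (D + 1)) :
    sg v l * (n • v) l = |(n • v) l| := by
  have h1 : sg v l * v l = |v l| := by
    unfold sg
    split_ifs with h
    · rw [abs_of_nonneg h, one_mul]
    · rw [abs_of_neg (not_le.1 h)]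
      ring
  rw [Pi.smul_apply, nsmul_eq_mul, abs_mul, Nat.abs_cast, ← h1]
  ring

theorem abs_nsmul' (v : Fin (D + 1) → ℤ) (n : ℕ) (i : Fin (D + 1)) :
    |(n • v) i| = n * |v i| := by
  rw [Pi.smul_apply, nsmul_eq_mul, abs_mul, Nat.abs_cast]

theorem Pc_zero {e : Equiv.Perm (Fin (D + 1))} {w s : Fin (D + 1) → ℤ} {h : Fin (D + 1) → ℕ} :
    Pc e w s h 0 (e 0) = s (e 0) * (|w (e 0)| + h (e 0)) := by
  rw [Pc, if_pos rfl]

theorem Pc_ne {e : Equiv.Perm (Fin (D + 1))} {w s : Fin (D + 1) → ℤ} {h : Fin (D + 1) → ℕ}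
    {l : Fin (D + 1)} (hl : l ≠ e 0) : Pc e w s h 0 l = -(s l * h l) := by
  rw [Pc, if_neg hl, if_neg]
  intro h2
  exact hl (pos_zero.1 (by omega))

theorem nm_Pc {e : Equiv.Perm (Fin (D + 1))} {w s : Fin (D + 1) → ℤ}
    (hs : ∀ l, s l = 1 ∨ s l = -1) (hsw : ∀ l, s l * w l = |w l|) (h : Fin (D + 1) → ℕ) :
    nm (Pc e w s h 0) + nm (w - Pc e w s h 0) = nm w + 2 * ∑ l, (h l : ℤ) := by
  unfold nm
  rw [Finset.mul_sum, ← Finset.sum_add_distrib, ← Finset.sum_add_distrib]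
  refine Finset.sum_congr rfl fun l _ => ?_
  rw [Pi.sub_apply]
  have h1 := hsw l
  have h2 := abs_nonneg (w l)
  by_cases hl : l = e 0
  · have h3 : Pc e w s h 0 l = s l * (|w l| + h l) := by rw [hl]; exact Pc_zero
    have h4 : |s l * (|w l| + (h l : ℤ))| = |w l| + h l := by
      rcases hs l with h | h <;> rw [h]
      · rw [one_mul, abs_of_nonneg (by omega)]
      · rw [neg_one_mul, abs_neg, abs_of_nonneg (by omega)]
    have h5 : |w l - s l * (|w l| + (h l : ℤ))| = h l := by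
      have h6 : w l - s l * (|w l| + (h l : ℤ)) = -(s l * h l) := by
        rcases hs l with h | h <;> rw [h] at h1 ⊢ <;> linarith
      rw [h6, abs_neg, abs_mul]
      rcases hs l with h | h <;> rw [h] <;> simp
    rw [h3, h4, h5]
    ring
  · have h3 : Pc e w s h 0 l = -(s l * h l) := Pc_ne hl
    have h4 : |(-(s l * (h l : ℤ)))| = h l := by
      rw [abs_neg, abs_mul]
      rcases hs l with h | h <;> rw [h] <;> simp
    have h5 : |w l - -(s l * (h l : ℤ))| = |w l| + h l := by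
      rcases hs l with hl1 | hl1 <;> rw [hl1] at h1 ⊢
      · have h6 : w l - -(1 * (h l : ℤ)) = |w l| + h l := by rw [← h1]; ring
        rw [h6, abs_of_nonneg (by omega)]
      · have h6 : w l - -(-1 * (h l : ℤ)) = -(|w l| + h l) := by rw [← h1]; ring
        rw [h6, abs_neg, abs_of_nonneg (by omega)]
    rw [h3, h4, h5]
    ring

/-- The first family, for given `n` and `g`. -/
theorem core_R (hD : 1 ≤ D) (ha : 0 < a) (hab : a < b) (p : unitInterval) (hp0 : 0 < (p : ℝ))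
    (hp1 : (p : ℝ) < 1) {v : Fin (D + 1) → ℤ} (hv : v ≠ 0) (hv2 : ∀ i, |v i| ≤ 2)
    {i k : Fin (D + 1)} (hik : i ≠ k) {n g : ℕ} (hg1 : 1 ≤ g)
    (hg2 : 2 * a * g ≤ (b - a) * n)
    (c1 : ∀ l, l ≠ i → (g : ℤ) * |v l| ≤ 2 * n)
    (c2 : (g : ℤ) * |v i| ≤ n * (2 - |v k|))
    (hfr : (b - a) * (n * (nm v : ℝ)) < 2 * a * (g * (nm v : ℝ)) + (b - a)) :
    ∃ j : W (D + 1) n, 0 < (law (D + 1) n p).real (SemiEssential a b v j) ∧
      (law (D + 1) n p).real (VeryInfluential a b v j) = 0 := by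
  classical
  obtain ⟨e, he0, heD⟩ := exists_perm hD hik
  have hn0 : (0 : ℝ) ≤ n := Nat.cast_nonneg _
  set τ := prv e with hτ
  set M : Fin (D + 1) → ℕ := fun l => (|v (τ l)|).toNat with hM
  have hMz : ∀ l, (M l : ℤ) = |v (τ l)| := fun l => Int.toNat_of_nonneg (abs_nonneg _)
  have hMr : ∀ l, ((|v (τ l)| : ℤ) : ℝ) = M l := fun l => by exact_mod_cast (hMz l).symm
  have hM0 : ∀ l, (0 : ℝ) ≤ M l := fun l => Nat.cast_nonneg _
  have τk : τ k = i := by rw [hτ, ← he0, prv_zero, heD]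
  have τne : ∀ l, l ≠ k → τ l ≠ i := fun l hl h => hl (τ.injective (h.trans τk.symm))
  have hsum : ∑ l, (M l : ℤ) = nm v := by
    rw [Finset.sum_congr rfl fun l _ => hMz l]
    exact Equiv.sum_comp τ (fun l => |v l|)
  obtain ⟨l1, hl1⟩ := Function.ne_iff.1 hv
  obtain ⟨j, hj, ω, hω⟩ := chain_semi (n := n) ha hab hv2 hD e (sg v) (sg_cases v) (sg_mul v n)
    (fun l => g * M l) ⟨τ.symm l1, Nat.mul_pos hg1 (by
      have h1 := hMz (τ.symm l1)
      rw [Equiv.apply_symm_apply] at h1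
      have h2 : 0 < |v l1| := abs_pos.2 hl1
      omega)⟩ (by
      intro l hl
      rw [he0] at hl
      have h1 := c1 (τ l) (τne l hl)
      rw [← hMz] at h1
      exact_mod_cast h1) (by
      rw [he0, abs_nsmul']
      rw [← τk, ← hMz] at c2
      push_cast
      linarith) (by
      intro l
      rw [abs_nsmul']
      have h2 := mul_le_mul_of_nonneg_right hg2 (hM0 l)
      have h3 := hMr l
      push_cast at h3 ⊢
      rw [h3]
      linarith)
  refine ⟨j, prob_pos p hp0 hp1 _ _ hω, ?_⟩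
  rw [very_empty' ha hab hv2 _ ?_ j hj]
  · simp
  · have h1 := nm_Pc (e := e) (w := n • v) (sg_cases v) (sg_mul v n) (fun l => g * M l)
    have h2 : ∑ l, ((g * M l : ℕ) : ℤ) = g * nm v := by
      rw [← hsum, Finset.mul_sum]
      push_cast
      rfl
    rw [h2] at h1
    have h1' : (nm (Pc e (n • v) (sg v) (fun l => g * M l) 0) : ℝ) +
        nm (n • v - Pc e (n • v) (sg v) (fun l => g * M l) 0) =
        nm (n • v) + 2 * (g * nm v) := by exact_mod_cast h1
    rw [h1']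
    have eN : (nm (n • v) : ℝ) = n * nm v := by
      rw [nm_nsmul]
      push_cast
      ring
    rw [eN]
    linarith

/-- The first family: the last coordinate's tent fits beyond `v (e 0)`. -/
theorem case_R (hD : 1 ≤ D) (ha : 0 < a) (hab : a < b) (p : unitInterval) (hp0 : 0 < (p : ℝ))
    (hp1 : (p : ℝ) < 1) {v : Fin (D + 1) → ℤ} (hv : v ≠ 0) (hv2 : ∀ i, |v i| ≤ 2)
    {i k : Fin (D + 1)} (hik : i ≠ k)
    (c1 : ∀ l, l ≠ i → (b - a) * ((|v l| : ℤ) : ℝ) ≤ 4 * a)
    (c2 : (b - a) * ((|v i| : ℤ) : ℝ) ≤ 2 * a * (2 - ((|v k| : ℤ) : ℝ))) (N : ℕ) :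
    ∃ n ≥ N, ∃ j : W (D + 1) n, 0 < (law (D + 1) n p).real (SemiEssential a b v j) ∧
      (law (D + 1) n p).real (VeryInfluential a b v j) = 0 := by
  classical
  have hba : 0 < b - a := by linarith
  have hρ : 0 < (b - a) / (2 * a) := div_pos hba (by linarith)
  set ρ : ℝ := (b - a) / (2 * a) with hρd
  have hm0 : (1 : ℝ) ≤ nm v := by exact_mod_cast nm_pos hv
  obtain ⟨K, hK⟩ := exists_nat_gt (1 / ρ)
  obtain ⟨n, hn, hfr⟩ := exists_fract_lt ρ (ρ / nm v) (by positivity) (max N K)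
  have hnN : N ≤ n := (le_max_left _ _).trans hn
  have hnK : (K : ℝ) ≤ n := by exact_mod_cast (le_max_right _ _).trans hn
  have hn1 : 1 < n * ρ := by
    rw [div_lt_iff₀ hρ] at hK
    have := mul_le_mul_of_nonneg_right hnK hρ.le
    linarith
  set g : ℕ := ⌊(n : ℝ) * ρ⌋₊ with hg
  have hfl : (g : ℝ) ≤ n * ρ := Nat.floor_le (by positivity)
  have hfr' : (n : ℝ) * ρ - g = Int.fract (n * ρ) := by
    rw [Int.fract, ← natCast_floor_eq_intCast_floor (by positivity)]
  have hg1 : 1 ≤ g := Nat.le_floor (by push_cast; linarith)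
  rw [← hfr', lt_div_iff₀ (by linarith)] at hfr
  have eρ : 2 * a * ρ = b - a := by
    rw [hρd]
    field_simp
  have hg2 : 2 * a * g ≤ (b - a) * n := by
    have := mul_le_mul_of_nonneg_left hfl (show 0 ≤ 2 * a by linarith)
    rw [← eρ]
    linarith
  have hn0 : (0 : ℝ) ≤ n := Nat.cast_nonneg _
  have key : ∀ l, (0 : ℝ) ≤ ((|v l| : ℤ) : ℝ) := fun l => by exact_mod_cast abs_nonneg _
  refine ⟨n, hnN, core_R hD ha hab p hp0 hp1 hv hv2 hik hg1 hg2 ?_ ?_ ?_⟩
  · intro l hl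
    have h1 : (2 * a) * ((g : ℝ) * ((|v l| : ℤ) : ℝ)) ≤ (2 * a) * (2 * n) := by
      have h2 := mul_le_mul_of_nonneg_right hg2 (key l)
      have h3 := mul_le_mul_of_nonneg_right (c1 l hl) hn0
      linarith
    have h4 := le_of_mul_le_mul_left h1 (by linarith)
    exact_mod_cast h4
  · have h1 : (2 * a) * ((g : ℝ) * ((|v i| : ℤ) : ℝ)) ≤
        (2 * a) * (n * (2 - ((|v k| : ℤ) : ℝ))) := by
      have h2 := mul_le_mul_of_nonneg_right hg2 (key i)
      have h3 := mul_le_mul_of_nonneg_right c2 hn0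
      linarith
    have h4 := le_of_mul_le_mul_left h1 (by linarith)
    exact_mod_cast h4
  · have h3 : 2 * a * ((n * ρ - g) * nm v) < 2 * a * ρ := mul_lt_mul_of_pos_left hfr (by linarith)
    have h4 : 2 * a * (n * ρ * nm v) = (b - a) * (n * nm v) := by
      rw [← eρ]; ring
    rw [eρ] at h3
    nlinarith

/-- The second family, for given `n` and `g`: all coordinates but one are `± 2`. -/
theorem core_X (hD : 1 ≤ D) (ha : 0 < a) (hab : a < b) (p : unitInterval)
    (hp0 : 0 < (p : ℝ)) (hp1 : (p : ℝ) < 1) {v : Fin (D + 1) → ℤ} (hv2 : ∀ i, |v i| ≤ 2)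
    (i : Fin (D + 1)) (hvi : ∀ l, l ≠ i → |v l| = 2) {n g : ℕ} (hg1 : 1 ≤ g) (hgn : g ≤ n)
    (hg2 : 2 * a * g ≤ (b - a) * n)
    (hfr : (b - a) * (2 * n * D) < 2 * a * (2 * g * D) + (b - a)) :
    ∃ j : W (D + 1) n, 0 < (law (D + 1) n p).real (SemiEssential a b v j) ∧
      (law (D + 1) n p).real (VeryInfluential a b v j) = 0 := by
  classical
  have : Nontrivial (Fin (D + 1)) := Fin.nontrivial_iff_two_le.mpr (by omega)
  obtain ⟨k, hki⟩ := exists_ne i
  obtain ⟨e, he0, heD⟩ := exists_perm hD hki.symm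
  have hba : 0 < b - a := by linarith
  set τ := prv e with hτ
  have τk : τ k = i := by rw [hτ, ← he0, prv_zero, heD]
  have τne : ∀ l, l ≠ k → τ l ≠ i := fun l hl h => hl (τ.injective (h.trans τk.symm))
  set h : Fin (D + 1) → ℕ := fun l => if l = k then 0 else 2 * g with hh
  have hk0 : h k = 0 := by rw [hh]; simp
  have hl0 : ∀ l, l ≠ k → h l = 2 * g := fun l hl => by rw [hh]; simp [hl]
  obtain ⟨j, hj, ω, hω⟩ := chain_semi (n := n) ha hab hv2 hD e (sg v) (sg_cases v) (sg_mul v n)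
    h ⟨i, by rw [hl0 i hki.symm]; omega⟩ (by
      intro l hl
      rw [he0] at hl
      rw [hl0 l hl]
      omega) (by
      rw [he0, hk0, abs_nsmul', hvi k hki]
      push_cast
      linarith) (by
      intro l
      by_cases hl : l = k
      · rw [hl, hk0]
        have h1 : (0 : ℝ) ≤ ((|(n • v) (prv e k)| : ℤ) : ℝ) := by exact_mod_cast abs_nonneg _
        have := mul_nonneg hba.le h1
        push_cast at this ⊢
        linarith
      · rw [hl0 l hl, abs_nsmul', hvi _ (τne l hl)]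
        push_cast
        linarith)
  have hc : ∑ l, max (-(sg v l * Pc e (n • v) (sg v) h 0 l)) 0 = ((2 * g * D : ℕ) : ℤ) := by
    have h1 : ∀ l, max (-(sg v l * Pc e (n • v) (sg v) h 0 l)) 0 =
        2 * (g : ℤ) - (if l = k then 2 * (g : ℤ) else 0) := by
      intro l
      by_cases hl : l = k
      · have h2 : Pc e (n • v) (sg v) h 0 l = sg v l * (|(n • v) l| + h l) := by
          rw [hl, ← he0]; exact Pc_zero
        rw [h2, if_pos hl, sub_self]
        have h3 := abs_nonneg ((n • v) l)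
        rcases sg_cases v l with h4 | h4 <;> rw [h4] <;> omega
      · have h2 : Pc e (n • v) (sg v) h 0 l = -(sg v l * h l) := Pc_ne (by rw [he0]; exact hl)
        rw [h2, if_neg hl, hl0 l hl]
        push_cast
        rcases sg_cases v l with h4 | h4 <;> rw [h4] <;> omega
    rw [Finset.sum_congr rfl fun l _ => h1 l, Finset.sum_sub_distrib, Finset.sum_const,
      Finset.card_univ, Fintype.card_fin, Finset.sum_ite_eq' Finset.univ k]
    simp
    ring
  refine ⟨j, prob_pos p hp0 hp1 _ _ hω, ?_⟩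
  rw [very_empty_orthant ha hab hv2 (sg_cases v) (fun l => by rw [sg_mul]; exact abs_nonneg _)
    (Nat.mul_pos (by omega) hD) _ hc ?_ j hj]
  · simp
  · push_cast
    have h5 : (b - a) * (2 * n * ((D : ℝ) + 1 - 1)) = (b - a) * (2 * n * D) := by ring
    rw [h5]
    linarith

/-- The second family: all coordinates but one are `± 2`. -/
theorem case_X (hD : 1 ≤ D) (ha : 0 < a) (hab : a < b) (hb : b - a ≤ 2 * a) (p : unitInterval)
    (hp0 : 0 < (p : ℝ)) (hp1 : (p : ℝ) < 1) {v : Fin (D + 1) → ℤ} (hv2 : ∀ i, |v i| ≤ 2)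
    (i : Fin (D + 1)) (hvi : ∀ l, l ≠ i → |v l| = 2) (N : ℕ) :
    ∃ n ≥ N, ∃ j : W (D + 1) n, 0 < (law (D + 1) n p).real (SemiEssential a b v j) ∧
      (law (D + 1) n p).real (VeryInfluential a b v j) = 0 := by
  classical
  have hba : 0 < b - a := by linarith
  have hρ : 0 < (b - a) / (2 * a) := div_pos hba (by linarith)
  set ρ : ℝ := (b - a) / (2 * a) with hρd
  have eρ : 2 * a * ρ = b - a := by
    rw [hρd]
    field_simp
  have hρ1 : ρ ≤ 1 := by
    have h1 : (2 * a) * ρ ≤ (2 * a) * 1 := by linarith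
    exact le_of_mul_le_mul_left h1 (by linarith)
  have hD' : (1 : ℝ) ≤ D := by exact_mod_cast hD
  obtain ⟨K, hK⟩ := exists_nat_gt (1 / ρ)
  obtain ⟨n, hn, hfr⟩ := exists_fract_lt ρ (ρ / (2 * D)) (by positivity) (max N K)
  have hnN : N ≤ n := (le_max_left _ _).trans hn
  have hnK : (K : ℝ) ≤ n := by exact_mod_cast (le_max_right _ _).trans hn
  have hn1 : 1 < n * ρ := by
    rw [div_lt_iff₀ hρ] at hK
    have := mul_le_mul_of_nonneg_right hnK hρ.le
    linarith
  set g : ℕ := ⌊(n : ℝ) * ρ⌋₊ with hg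
  have hfl : (g : ℝ) ≤ n * ρ := Nat.floor_le (by positivity)
  have hfr' : (n : ℝ) * ρ - g = Int.fract (n * ρ) := by
    rw [Int.fract, ← natCast_floor_eq_intCast_floor (by positivity)]
  have hg1 : 1 ≤ g := Nat.le_floor (by push_cast; linarith)
  rw [← hfr', lt_div_iff₀ (by linarith)] at hfr
  have hn0 : (0 : ℝ) ≤ n := Nat.cast_nonneg _
  have hg2 : 2 * a * g ≤ (b - a) * n := by
    have := mul_le_mul_of_nonneg_left hfl (show 0 ≤ 2 * a by linarith)
    rw [← eρ]
    linarith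
  have hgn : g ≤ n := by
    have h1 : (g : ℝ) ≤ n := by
      have := mul_le_mul_of_nonneg_left hρ1 hn0
      linarith
    exact_mod_cast h1
  refine ⟨n, hnN, core_X hD ha hab p hp0 hp1 hv2 i hvi hg1 hgn hg2 ?_⟩
  have h3 : 2 * a * ((n * ρ - g) * (2 * D)) < 2 * a * ρ := mul_lt_mul_of_pos_left hfr (by linarith)
  have h4 : 2 * a * (n * ρ * (2 * D)) = (b - a) * (2 * n * D) := by
    rw [← eρ]; ring
  rw [eρ] at h3
  nlinarith

/-- Every direction, `b ≤ 3 a`. -/
theorem every_direction {d : ℕ} (hd : 2 ≤ d) (ha : 0 < a) (hab : a < b) (hb : b ≤ 3 * a)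
    (p : unitInterval) (hp0 : 0 < (p : ℝ)) (hp1 : (p : ℝ) < 1) {v : Fin d → ℤ} (hv : v ≠ 0)
    (hv2 : ∀ i, |v i| ≤ 2) (N : ℕ) :
    ∃ n ≥ N, ∃ j : W d n, 0 < (law d n p).real (SemiEssential a b v j) ∧
      (law d n p).real (VeryInfluential a b v j) = 0 := by
  classical
  obtain ⟨D, rfl⟩ : ∃ D, d = D + 1 := ⟨d - 1, by omega⟩
  have hD : 1 ≤ D := by omega
  have hba : 0 < b - a := by linarith
  have : Nontrivial (Fin (D + 1)) := Fin.nontrivial_iff_two_le.mpr hd
  have hle : ∀ l, (b - a) * ((|v l| : ℤ) : ℝ) ≤ 4 * a := fun l => by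
    have h1 : ((|v l| : ℤ) : ℝ) ≤ 2 := by exact_mod_cast hv2 l
    have h2 := mul_le_mul_of_nonneg_left h1 hba.le
    linarith
  by_cases hz : ∃ k, v k = 0
  · obtain ⟨k, hk⟩ := hz
    obtain ⟨i, hik⟩ := exists_ne k
    refine case_R hD ha hab p hp0 hp1 hv hv2 hik (fun l _ => hle l) ?_ N
    rw [hk, abs_zero]
    have := hle i
    push_cast at this ⊢
    linarith
  · push Not at hz
    have h12 : ∀ i, |v i| = 1 ∨ |v i| = 2 := fun i => by
      have h1 := Int.one_le_abs (hz i)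
      have h2 := hv2 i
      omega
    by_cases h1 : ∃ k, ∃ i, i ≠ k ∧ |v i| = 1 ∧ |v k| = 1
    · obtain ⟨k, i, hik, hi, hk⟩ := h1
      refine case_R hD ha hab p hp0 hp1 hv hv2 hik (fun l _ => hle l) ?_ N
      rw [hi, hk]
      push_cast
      linarith
    · push Not at h1
      obtain ⟨i, hi⟩ : ∃ i, ∀ l, l ≠ i → |v l| = 2 := by
        by_cases h2 : ∃ i, |v i| = 1
        · obtain ⟨i, hi⟩ := h2
          exact ⟨i, fun l hl => (h12 l).resolve_left fun h => h1 i l hl h hi⟩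
        · push Not at h2
          exact ⟨0, fun l _ => (h12 l).resolve_left (h2 l)⟩
      exact case_X hD ha hab (by linarith) p hp0 hp1 hv2 i hi N

/-- Every direction, `(b - a) (|v|₁ - 1) < 2 a |v|₁`. -/
theorem every_direction' {d : ℕ} (hd : 2 ≤ d) (ha : 0 < a) (hab : a < b)
    (p : unitInterval) (hp0 : 0 < (p : ℝ)) (hp1 : (p : ℝ) < 1) {v : Fin d → ℤ} (hv : v ≠ 0)
    (hv2 : ∀ i, |v i| ≤ 2) (hb : (b - a) * ((nm v : ℝ) - 1) < 2 * a * (nm v : ℝ)) :
    ∃ n ≥ 1, ∃ j : W d n, 0 < (law d n p).real (SemiEssential a b v j) ∧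
      (law d n p).real (VeryInfluential a b v j) = 0 := by
  classical
  by_cases hb3 : b ≤ 3 * a
  · exact every_direction hd ha hab hb3 p hp0 hp1 hv hv2 1
  push Not at hb3
  obtain ⟨D, rfl⟩ : ∃ D, d = D + 1 := ⟨d - 1, by omega⟩
  have hD : 1 ≤ D := by omega
  have hba : 0 < b - a := by linarith
  have : Nontrivial (Fin (D + 1)) := Fin.nontrivial_iff_two_le.mpr hd
  refine ⟨1, le_rfl, ?_⟩
  have hfr : (b - a) * (((1 : ℕ) : ℝ) * (nm v : ℝ)) <
      2 * a * (((1 : ℕ) : ℝ) * (nm v : ℝ)) + (b - a) := by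
    push_cast
    linarith
  have hg2 : 2 * a * ((1 : ℕ) : ℝ) ≤ (b - a) * ((1 : ℕ) : ℝ) := by
    push_cast
    linarith
  by_cases hz : ∃ k, v k = 0
  · obtain ⟨k, hk⟩ := hz
    obtain ⟨i, hik⟩ := exists_ne k
    refine core_R hD ha hab p hp0 hp1 hv hv2 hik le_rfl hg2 (fun l _ => ?_) ?_ hfr
    · have := hv2 l
      push_cast
      linarith
    · have := hv2 i
      rw [hk, abs_zero]
      push_cast
      linarith
  · push Not at hz
    have h12 : ∀ i, |v i| = 1 ∨ |v i| = 2 := fun i => by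
      have h1 := Int.one_le_abs (hz i)
      have h2 := hv2 i
      omega
    by_cases h1 : ∃ k, ∃ i, i ≠ k ∧ |v i| = 1 ∧ |v k| = 1
    · obtain ⟨k, i, hik, hi, hk⟩ := h1
      refine core_R hD ha hab p hp0 hp1 hv hv2 hik le_rfl hg2 (fun l _ => ?_) ?_ hfr
      · have := hv2 l
        push_cast
        linarith
      · rw [hi, hk]
        push_cast
    · push Not at h1
      obtain ⟨i, hi⟩ : ∃ i, ∀ l, l ≠ i → |v l| = 2 := by
        by_cases h2 : ∃ i, |v i| = 1
        · obtain ⟨i, hi⟩ := h2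
          exact ⟨i, fun l hl => (h12 l).resolve_left fun h => h1 i l hl h hi⟩
        · push Not at h2
          exact ⟨0, fun l _ => (h12 l).resolve_left (h2 l)⟩
      refine core_X hD ha hab p hp0 hp1 hv2 i hi le_rfl le_rfl hg2 ?_
      have nmv : nm v = |v i| + 2 * D := by
        unfold nm
        rw [← Finset.add_sum_erase _ _ (Finset.mem_univ i),
          Finset.sum_congr rfl fun l hl => hi l (Finset.ne_of_mem_erase hl),
          Finset.sum_const, Finset.card_erase_of_mem (Finset.mem_univ _), Finset.card_univ,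
          Fintype.card_fin, nsmul_eq_mul]
        simp
        ring
      have h3 : (2 : ℝ) * D ≤ nm v := by
        have h5 : 2 * (D : ℤ) ≤ nm v := by
          rw [nmv]
          have := abs_nonneg (v i)
          omega
        exact_mod_cast h5
      have hx : 0 ≤ b - a - 2 * a := by linarith
      have h4 : (b - a - 2 * a) * (2 * D - 1) ≤ (b - a - 2 * a) * ((nm v : ℝ) - 1) :=
        mul_le_mul_of_nonneg_left (by linarith) hx
      push_cast
      nlinarith

/-- A vanishing coordinate and `(b - a) ‖v‖_∞ ≤ 4 a`. -/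
theorem zero_direction {d : ℕ} (hd : 2 ≤ d) (ha : 0 < a) (hab : a < b)
    (p : unitInterval) (hp0 : 0 < (p : ℝ)) (hp1 : (p : ℝ) < 1) {v : Fin d → ℤ} (hv : v ≠ 0)
    (hv2 : ∀ i, |v i| ≤ 2) (hz : ∃ k, v k = 0)
    (hb : ∀ l, (b - a) * ((|v l| : ℤ) : ℝ) ≤ 4 * a) (N : ℕ) :
    ∃ n ≥ N, ∃ j : W d n, 0 < (law d n p).real (SemiEssential a b v j) ∧
      (law d n p).real (VeryInfluential a b v j) = 0 := by
  classical
  obtain ⟨D, rfl⟩ : ∃ D, d = D + 1 := ⟨d - 1, by omega⟩
  have hD : 1 ≤ D := by omega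
  have : Nontrivial (Fin (D + 1)) := Fin.nontrivial_iff_two_le.mpr hd
  obtain ⟨k, hk⟩ := hz
  obtain ⟨i, hik⟩ := exists_ne k
  refine case_R hD ha hab p hp0 hp1 hv hv2 hik (fun l _ => hb l) ?_ N
  rw [hk, abs_zero]
  have := hb i
  push_cast at this ⊢
  linarith

/-- A vanishing coordinate and `(b - a) ‖v‖_∞ (|v|₁ - 1) < 4 a |v|₁`. -/
theorem zero_direction' {d : ℕ} (hd : 2 ≤ d) (ha : 0 < a) (hab : a < b)
    (p : unitInterval) (hp0 : 0 < (p : ℝ)) (hp1 : (p : ℝ) < 1) {v : Fin d → ℤ} (hv : v ≠ 0)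
    (hv2 : ∀ i, |v i| ≤ 2) (hz : ∃ k, v k = 0)
    (hb : ∀ l, (b - a) * ((|v l| : ℤ) : ℝ) * ((nm v : ℝ) - 1) < 4 * a * (nm v : ℝ)) :
    ∃ n ≥ 1, ∃ j : W d n, 0 < (law d n p).real (SemiEssential a b v j) ∧
      (law d n p).real (VeryInfluential a b v j) = 0 := by
  classical
  have hba : 0 < b - a := by linarith
  by_cases h1 : ∃ l, |v l| = 2
  · obtain ⟨l, hl⟩ := h1
    have h2 := hb l
    rw [hl] at h2
    push_cast at h2
    exact every_direction' hd ha hab p hp0 hp1 hv hv2 (by linarith)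
  · push Not at h1
    have h3 : ∀ l, |v l| ≤ 1 := fun l => by
      have := hv2 l
      have := h1 l
      omega
    by_cases h4 : b - a ≤ 4 * a
    · refine zero_direction hd ha hab p hp0 hp1 hv hv2 hz (fun l => ?_) 1
      have h5 : ((|v l| : ℤ) : ℝ) ≤ 1 := by exact_mod_cast h3 l
      have h6 := mul_le_mul_of_nonneg_left h5 hba.le
      linarith
    · push Not at h4
      obtain ⟨D, rfl⟩ : ∃ D, d = D + 1 := ⟨d - 1, by omega⟩
      have hD : 1 ≤ D := by omega
      have : Nontrivial (Fin (D + 1)) := Fin.nontrivial_iff_two_le.mpr hd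
      obtain ⟨k, hk⟩ := hz
      obtain ⟨i, hik⟩ := exists_ne k
      obtain ⟨l1, hl1⟩ := Function.ne_iff.1 hv
      have hl2 : |v l1| = 1 := by
        have h6 : 0 < |v l1| := abs_pos.2 hl1
        have := h3 l1
        omega
      have h7 := hb l1
      rw [hl2] at h7
      push_cast at h7
      refine ⟨1, le_rfl, core_R hD ha hab p hp0 hp1 hv hv2 hik (g := 2) (by norm_num) ?_
        (fun l _ => ?_) ?_ ?_⟩
      · push_cast
        linarith
      · have := h3 l
        push_cast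
        linarith
      · have := h3 i
        rw [hk, abs_zero]
        push_cast
        linarith
      · push_cast
        linarith

/-- All weights when `|v|₁ ≤ 2`. -/
theorem short_direction {d : ℕ} (hd : 2 ≤ d) (ha : 0 < a) (hab : a < b) (p : unitInterval)
    (hp0 : 0 < (p : ℝ)) (hp1 : (p : ℝ) < 1) {v : Fin d → ℤ} (hv : v ≠ 0) (hv2 : nm v ≤ 2) :
    ∃ n ≥ 1, ∃ j : W d n, 0 < (law d n p).real (SemiEssential a b v j) ∧
      (law d n p).real (VeryInfluential a b v j) = 0 := by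
  have h1 := nm_pos hv
  have hv2' : ∀ i, |v i| ≤ 2 := fun i => (abs_le_nm v i).trans hv2
  by_cases h : nm v = 1
  · exact tent_unit hd ha hab p hp0 hp1 h
  · have h2 : nm v = 2 := by omega
    by_cases h3 : 3 * a ≤ b
    · exact ⟨1, le_rfl, small_case hd ha hab h3 p hp0 hp1 h2⟩
    · push Not at h3
      exact every_direction hd ha hab h3.le p hp0 hp1 hv hv2' 1

end Pool.Agent.KS6_62.Ess
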